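import Pool.Agent.Q80.VS.Dm
import Pool.Agent.Q80.TM.Fin
import Pool.Agent.H306R2.EPLim

set_option autoImplicit false

/-! The limits of the normalised shifted moments near the vertices of the cube. -/

namespace Q80.VS

open MeasureTheory Filter Topology Complex Set
open scoped ContDiff
open Q97.MM (Adm wt wt_pos pt abs_le_scaled scaled_integrable scaled_integral JJ M0)
open Q80.SP
open Pool.Agent.W182.KO (TF P P_bound P_diff one_add_inv_sq_int tau dk tau_dk)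
open Pool.Agent.TH612.CF (FH zab lh lt lh_hasProd)
open Pool.Agent.Q80.TM (hs seq_ev Ps Ps_symm JJ_pos)

noncomputable section

variable {k : ℕ}

/-- the Euler factor of `a_k` -/
def eul (k : ℕ) (p : Nat.Primes) : ℝ :=
  (1 - 1 / (p : ℝ)) ^ (k ^ 2) * ∑' m : ℕ, (dk k ((p : ℕ) ^ m) : ℝ) ^ 2 / (p : ℝ) ^ m

/-- the arithmetic constant -/
def ak (k : ℕ) : ℝ := ∏' p : Nat.Primes, eul k p

theorem eul_eq (k : ℕ) (p : Nat.Primes) : eul k p =
    (1 - 1 / (p : ℝ)) ^ ((k : ℝ) ^ 2) * ∑' m : ℕ, Pool.Agent.H306R2.lc k m ^ 2 * (1 / (p : ℝ)) ^ m := by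
  unfold eul
  have h1 : (1 - 1 / ((p : ℕ) : ℝ)) ^ ((k : ℝ) ^ 2) = (1 - 1 / ((p : ℕ) : ℝ)) ^ (k ^ 2) := by
    rw [← Real.rpow_natCast _ (k ^ 2)]
    push_cast
    rfl
  rw [h1]
  congr 1
  refine tsum_congr fun m => ?_
  have h2 : (dk k ((p : ℕ) ^ m) : ℝ) = Pool.Agent.H306R2.lc k m := by
    have h3 := Pool.Agent.W182.KO.dk_eq k ((p : ℕ) ^ m)
    rw [Pool.Agent.H306R2.dv_prime_pow _ p.2] at h3
    exact h3
  rw [h2, one_div, inv_pow, div_eq_mul_inv]

theorem ak_eq (k : ℕ) : ak k = Pool.Agent.H306R2.aF k := by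
  unfold ak Pool.Agent.H306R2.aF
  exact tprod_congr fun p => eul_eq k p

theorem ak_pos (hk : 1 ≤ k) : 0 < ak k := by
  rw [ak_eq]
  exact Pool.Agent.H306R2.aF_pos (by exact_mod_cast hk)

theorem eul_hasProd (hk : 1 ≤ k) : HasProd (eul k) (ak k) := by
  have h1 := Pool.Agent.H306R2.aF_multipliable (show (0:ℝ) < k by exact_mod_cast hk)
  have h2 : Multipliable (eul k) := h1.congr fun p => (eul_eq k p).symm
  exact h2.hasProd

theorem lh_zero (p : Nat.Primes) : lh (k := k) (fun _ => 0) (fun _ => 0) p = ((eul k p : ℝ) : ℂ) := by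
  unfold lh eul
  have h1 : ∀ m : ℕ, lt (k := k) (fun _ => 0) (fun _ => 0) p m =
      (((dk k ((p : ℕ) ^ m) : ℝ) ^ 2 / (p : ℝ) ^ m : ℝ) : ℂ) := by
    intro m
    unfold lt
    simp only [mul_zero, neg_zero]
    rw [tau_dk]
    push_cast
    ring
  simp only [h1]
  simp only [mul_zero, add_zero, sub_zero, Finset.prod_const, Finset.card_univ, Fintype.card_fin]
  rw [← Complex.ofReal_tsum, ← pow_mul, ← sq, Complex.cpow_neg_one]
  push_cast
  rw [one_div]

theorem FH_zero (hk : 1 ≤ k) : FH (k := k) (fun _ => 0) (fun _ => 0) = ((ak k : ℝ) : ℂ) := by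
  have h1 := lh_hasProd (k := k) (a := fun _ => 0) (b := fun _ => 0) (c := 0) (by norm_num)
    (fun j => by simp)
  simp only [lh_zero] at h1
  have h2 := (eul_hasProd hk).map Complex.ofRealHom Complex.continuous_ofReal
  exact h1.unique h2

section lim

variable {T U : ℕ → ℝ} {Φ : (Fin k ⊕ Fin k → ℂ) → ℂ} {ξ η : Fin k → ℝ} {p q : Fin k → ℝ → ℂ}

theorem SS_meas (k : ℕ) {T : ℝ} (U : ℝ) : AEStronglyMeasurable (fun z : Fin k ⊕ Fin k → ℝ =>
    Pool.Agent.Q80.TM.SS k T U (fun e => (z e : ℂ))) volume := by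
  have h1 : Continuous (fun x : (Fin k ⊕ Fin k → ℝ) × ℝ =>
      (∏ e, ze (Real.log T) x.2 e (x.1 e)) * (wt T U x.2 : ℂ)) := by
    refine Continuous.mul (continuous_finsetProd _ fun e _ => ?_) ?_
    · have h3 : Continuous (fun x : (Fin k ⊕ Fin k → ℝ) × ℝ => x.1 e) :=
        (continuous_apply e).comp continuous_fst
      exact (ze_cont (Real.log T) e).comp (continuous_snd.prodMk h3)
    · exact Complex.continuous_ofReal.comp ((wt_cont T U).comp continuous_snd)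
  have h2 := h1.stronglyMeasurable.integral_prod_right' (ν := (volume : Measure ℝ))
  refine h2.aestronglyMeasurable.congr (Eventually.of_forall fun z => ?_)
  unfold Pool.Agent.Q80.TM.SS
  refine integral_congr_ae (Eventually.of_forall fun t => ?_)
  simp only [ff_ze]

theorem fe_pow_int (hp : ∀ i, TF (ξ i) (p i)) (hq : ∀ i, TF (η i) (q i)) (m : ℕ)
    (e : Fin k ⊕ Fin k) : Integrable (fun x : ℝ => ‖fe p q e x‖ * (1 + |x|) ^ m) := by
  have hb : ∃ C : ℝ, 0 ≤ C ∧ ∀ x : ℝ, ‖fe p q e x‖ * (1 + |x|) ^ (m + 2) ≤ C := by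
    have key : ∀ {ξ1 : ℝ} {ψ : ℝ → ℂ}, TF ξ1 ψ → ∃ C : ℝ, 0 ≤ C ∧ ∀ x : ℝ,
        ‖P ψ (x * I) / (2 * Real.pi)‖ * (1 + |x|) ^ (m + 2) ≤ C := by
      intro ξ1 ψ h
      obtain ⟨C, hC, hb⟩ := P_bound h (m + 2)
      refine ⟨C, hC, fun x => ?_⟩
      have h1 := hb (x * I) (by simp)
      have e1 : ((x : ℂ) * I).re = 0 := by simp
      have e2 : ‖(x : ℂ) * I‖ = |x| := by
        rw [norm_mul, Complex.norm_I, mul_one, Complex.norm_real, Real.norm_eq_abs]
      rw [e1, e2, mul_zero, Real.exp_zero, mul_one] at h1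
      refine le_trans ?_ h1
      apply mul_le_mul_of_nonneg_right _ (by positivity)
      rw [norm_div]
      have h3 : ‖(2 * Real.pi : ℂ)‖ = 2 * Real.pi := by
        have : (2 * Real.pi : ℂ) = ((2 * Real.pi : ℝ) : ℂ) := by push_cast; rfl
        rw [this, Complex.norm_real, Real.norm_of_nonneg (by positivity)]
      rw [h3]
      exact div_le_self (norm_nonneg _) (by linarith [Real.pi_gt_three])
    rcases e with i | j
    · exact key (hp i)
    · obtain ⟨C, hC, hb⟩ := key (hq j)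
      refine ⟨C, hC, fun x => ?_⟩
      show ‖(starRingEnd ℂ) (P (q j) (x * I) / (2 * Real.pi))‖ * _ ≤ _
      rw [RCLike.norm_conj]
      exact hb x
  obtain ⟨C, hC, hb⟩ := hb
  refine (one_add_inv_sq_int.const_mul C).mono' ?_ (Eventually.of_forall fun x => ?_)
  · have := fe_cont hp hq e
    exact (by fun_prop : Continuous (fun x : ℝ => ‖fe p q e x‖ * (1 + |x|) ^ m)).aestronglyMeasurable
  · rw [Real.norm_of_nonneg (by positivity), ← div_eq_mul_inv, le_div_iff₀ (by positivity),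
      mul_assoc, ← pow_add]
    exact hb x

theorem test_lim (hk : 1 ≤ k) {u : ℝ} (hu : 0 < u) (hT : Tendsto T atTop atTop)
    (hU : ∀ j, 1 ≤ U j ∧ U j ≤ T j / Real.log (T j)) (hUu : ∀ j, T j ^ u ≤ U j)
    (hΦ : ∀ y, Tendsto (fun j => hs k T U j y) atTop (𝓝 (Φ y)))
    (hp : ∀ i, TF (ξ i) (p i)) (hq : ∀ i, TF (η i) (q i)) :
    Tendsto (fun j => ∫ z : Fin k ⊕ Fin k → ℝ, (∏ e, fe p q e (z e)) *
      hs k T U j (fun e => (z e : ℂ))) atTop
      (𝓝 (∫ z : Fin k ⊕ Fin k → ℝ, (∏ e, fe p q e (z e)) * Φ (fun e => (z e : ℂ)))) := by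
  obtain ⟨C, m, hC, hg⟩ := SS_growth hk hu
  have hg' : ∀ᶠ j in atTop, ∀ z : Fin k ⊕ Fin k → ℝ,
      ‖Pool.Agent.Q80.TM.SS k (T j) (U j) (fun e => (z e : ℂ))‖ ≤
        C * (∏ e, (1 + |z e|) ^ m) * JJ k (T j) (U j) (1 / 2) := by
    filter_upwards [hT.eventually hg, Pool.Agent.Q80.TM.seq_ev (p := fun T U => Adm T U)
      (Eventually.of_forall fun T U h => h) hT hU] with j h1 h2
    exact h1 _ h2 (hUu j)
  have hcf : Continuous (fun z : Fin k ⊕ Fin k → ℝ => ∏ e, fe p q e (z e)) :=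
    continuous_finsetProd _ fun e _ => (fe_cont hp hq e).comp (continuous_apply e)
  refine tendsto_integral_filter_of_dominated_convergence
    (fun z => C * ∏ e, (‖fe p q e (z e)‖ * (1 + |z e|) ^ m)) ?_ ?_ ?_ ?_
  · refine Eventually.of_forall fun j => ?_
    refine hcf.aestronglyMeasurable.mul ?_
    unfold hs
    simp only [div_eq_mul_inv]
    exact (SS_meas k (U j)).mul_const _
  · filter_upwards [hg', seq_ev (JJ_pos k) hT hU] with j h1 h2
    refine Eventually.of_forall fun z => ?_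
    rw [norm_mul, norm_prod, Finset.prod_mul_distrib]
    have h3 : ‖hs k T U j (fun e => (z e : ℂ))‖ ≤ C * ∏ e, (1 + |z e|) ^ m := by
      unfold hs
      rw [norm_div, Complex.norm_real, Real.norm_of_nonneg h2.le, div_le_iff₀ h2]
      exact h1 z
    calc _ ≤ (∏ e, ‖fe p q e (z e)‖) * (C * ∏ e, (1 + |z e|) ^ m) := by gcongr
      _ = _ := by ring
  · exact (Integrable.fintype_prod (f := fun e x => ‖fe p q e x‖ * (1 + |x|) ^ m)
      fun e => fe_pow_int hp hq m e).const_mul C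
  · exact Eventually.of_forall fun z => (hΦ _).const_mul _

/-- the ratio of the diagonal normalisation and the moment -/
def rr (k : ℕ) (T U : ℝ) : ℝ := U * √Real.pi * Real.log T ^ (k ^ 2) / JJ k T U (1 / 2)

theorem tested (hk : 1 ≤ k) {u : ℝ} (hT : Tendsto T atTop atTop)
    (hU : ∀ j, 1 ≤ U j ∧ U j ≤ T j / Real.log (T j)) (hUu : ∀ j, T j ^ u ≤ U j)
    (hp : ∀ i, TF (ξ i) (p i)) (hq : ∀ i, TF (η i) (q i)) (hξ : ∀ i, 0 ≤ ξ i)
    (hη : ∀ i, 0 ≤ η i) (hs1 : ∑ i, ξ i < u) {ε : ℝ} (hε : 0 < ε) :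
    ∀ᶠ j in atTop, ‖(∫ z : Fin k ⊕ Fin k → ℝ, (∏ e, fe p q e (z e)) *
      hs k T U j (fun e => (z e : ℂ))) - (rr k (T j) (U j) : ℂ) * mt p q‖ ≤
        ε * rr k (T j) (U j) := by
  have hm := main_mean hk hp hq hξ hη hs1 (mul_pos hε (Real.sqrt_pos.2 Real.pi_pos))
  filter_upwards [hT.eventually hm, seq_ev (JJ_pos k) hT hU,
    Pool.Agent.Q80.TM.seq_ev (p := fun T U => Adm T U)
      (Eventually.of_forall fun T U h => h) hT hU] with j h1 h2 h3
  have h4 := h1 _ h3 (hUu j)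
  have hJc : (JJ k (T j) (U j) (1 / 2) : ℂ) ≠ 0 := by exact_mod_cast h2.ne'
  have e1 : (∫ z : Fin k ⊕ Fin k → ℝ, (∏ e, fe p q e (z e)) *
      hs k T U j (fun e => (z e : ℂ))) - (rr k (T j) (U j) : ℂ) * mt p q =
      ((∫ z : Fin k ⊕ Fin k → ℝ,
          (∏ e, fe p q e (z e)) * Pool.Agent.Q80.TM.SS k (T j) (U j) (fun e => (z e : ℂ))) -
        ((U j * √Real.pi * Real.log (T j) ^ (k ^ 2) : ℝ) : ℂ) * mt p q) /
          (JJ k (T j) (U j) (1 / 2) : ℂ) := by
    rw [sub_div, ← integral_div]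
    congr 1
    · refine integral_congr_ae (Eventually.of_forall fun z => ?_)
      unfold hs
      simp only
      ring
    · unfold rr
      push_cast
      ring
  rw [e1, norm_div, Complex.norm_real, Real.norm_of_nonneg h2.le, div_le_iff₀ h2]
  refine h4.trans (le_of_eq ?_)
  unfold rr
  field_simp

end lim

end

end Q80.VS
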