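import Pool.Agent.Q80.VS.Fub

set_option autoImplicit false

/-! The asymptotic formula for the tested shifted moment. -/

namespace Q80.VS

open MeasureTheory Filter Topology Complex Set
open Q97.MM (Adm wt wt_pos pt abs_le_scaled scaled_integrable scaled_integral)
open Q80.SP
open Pool.Agent.W182.KO (TF tau dk P P_bound P_diff P_inv J2 J2_nonneg one_add_inv_sq_int)
open Pool.Agent.TH612.CF (FH zab)

noncomputable section

variable {k : ℕ} {ξ η : Fin k → ℝ} {p q : Fin k → ℝ → ℂ}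

theorem kap_lim (B : ℕ) :
    Tendsto (fun T : ℝ => T⁻¹ + T ^ B * Real.exp (-(Real.log T ^ 2 / 8))) atTop (𝓝 0) := by
  have h1 : Tendsto (fun T : ℝ => T ^ B * Real.exp (-(Real.log T ^ 2 / 8))) atTop (𝓝 0) := by
    have h2 : Tendsto (fun L : ℝ => Real.exp (B * L - L ^ 2 / 8)) atTop (𝓝 0) := by
      refine Real.tendsto_exp_atBot.comp ?_
      have h3 : Tendsto (fun L : ℝ => L * (B - L / 8)) atTop atBot := by
        refine tendsto_id.atTop_mul_atBot₀ ?_
        have : Tendsto (fun L : ℝ => (B : ℝ) + -(L / 8)) atTop atBot :=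
          tendsto_const_nhds.add_atBot (tendsto_neg_atTop_atBot.comp
            (tendsto_id.atTop_div_const (by norm_num)))
        refine this.congr fun L => ?_
        ring
      refine h3.congr fun L => ?_
      ring
    refine (h2.comp Real.tendsto_log_atTop).congr' ?_
    filter_upwards [eventually_gt_atTop 0] with T hT
    simp only [Function.comp]
    rw [sub_eq_add_neg, Real.exp_add]
    congr 1
    rw [mul_comm, ← Real.rpow_def_of_pos hT, Real.rpow_natCast]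
  simpa using tendsto_inv_atTop_zero.add h1

theorem off_lim (C X δ : ℝ) (hδ : 0 < δ) :
    Tendsto (fun T : ℝ => C * (T ^ X * Real.exp (-(T ^ δ / 16)))) atTop (𝓝 0) := by
  obtain ⟨n, hn⟩ := exists_nat_ge (X / δ)
  have h1 : Tendsto (fun y : ℝ => y ^ n * Real.exp (-y)) atTop (𝓝 0) :=
    Real.tendsto_pow_mul_exp_neg_atTop_nhds_zero n
  have h2 : Tendsto (fun T : ℝ => T ^ δ / 16) atTop atTop :=
    (tendsto_rpow_atTop hδ).atTop_div_const (by norm_num)
  have h3 := ((h1.comp h2).const_mul ((16:ℝ) ^ n))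
  rw [mul_zero] at h3
  have h4 : Tendsto (fun T : ℝ => T ^ X * Real.exp (-(T ^ δ / 16))) atTop (𝓝 0) := by
    refine squeeze_zero' ?_ ?_ h3
    · filter_upwards [eventually_ge_atTop 1] with T hT
      positivity
    · filter_upwards [eventually_ge_atTop 1] with T hT
      simp only [Function.comp]
      have hT0 : 0 < T := by linarith
      have h5 : T ^ X ≤ (16:ℝ) ^ n * (T ^ δ / 16) ^ n := by
        rw [← mul_pow, mul_div_cancel₀ _ (by norm_num), ← Real.rpow_natCast (T ^ δ), ← Real.rpow_mul hT0.le]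
        apply Real.rpow_le_rpow_of_exponent_le hT
        rw [div_le_iff₀ hδ] at hn
        linarith
      calc T ^ X * Real.exp (-(T ^ δ / 16)) ≤
            ((16:ℝ) ^ n * (T ^ δ / 16) ^ n) * Real.exp (-(T ^ δ / 16)) := by gcongr
        _ = _ := by ring
  simpa using h4.const_mul C

theorem dpe_prod (hp : ∀ i, TF (ξ i) (p i)) (hq : ∀ i, TF (η i) (q i)) {L : ℝ} (hL : 0 < L)
    {N M : ℕ} (hN : ∀ i, Real.exp (ξ i * L) < N) (hN' : ∀ i, Real.exp (η i * L) < N)
    (hM : N ^ k < M) (t : ℝ) : ∏ e, dpe p q L t e =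
      pol M (ah p L) t * (starRingEnd ℂ) (pol M (ah q L) t) := by
  rw [Fintype.prod_sum_type, ← prod_DP hp hL hN hM t, ← prod_DP hq hL hN' hM t, map_prod]
  rfl

theorem pol_le (M : ℕ) (a : ℕ → ℂ) (t : ℝ) : ‖pol M a t‖ ≤ ∑ n ∈ Finset.range M, ‖a n‖ := by
  unfold pol
  refine norm_sum_le_of_le _ fun n _ => ?_
  have e : -((t * Real.log n : ℝ) : ℂ) * I = ((-(t * Real.log n) : ℝ) : ℂ) * I := by push_cast; ring
  rw [norm_mul, e, Complex.norm_exp_ofReal_mul_I, mul_one]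

theorem sme_meas (hp : ∀ i, TF (ξ i) (p i)) (hq : ∀ i, TF (η i) (q i)) (L : ℝ) :
    AEStronglyMeasurable (fun t : ℝ => ∏ e, sme p q L t e) volume := by
  have h : ∀ e, AEStronglyMeasurable (fun t : ℝ => sme p q L t e) volume := by
    rintro (i | j)
    · exact sm_meas (hp i) L (hz_cont 1)
    · exact Complex.continuous_conj.comp_aestronglyMeasurable (sm_meas (hq j) L (hz_cont 1))
  exact Finset.aestronglyMeasurable_fun_prod _ fun e _ => h e

/-- the main term -/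
def mt (p q : Fin k → ℝ → ℂ) : ℂ := FH (k := k) (fun _ => 0) (fun _ => 0) * TT p q

theorem main_mean (hk : 1 ≤ k) (hp : ∀ i, TF (ξ i) (p i)) (hq : ∀ i, TF (η i) (q i))
    (hξ : ∀ i, 0 ≤ ξ i) (hη : ∀ i, 0 ≤ η i) {u : ℝ} (hu : ∑ i, ξ i < u) {ε : ℝ} (hε : 0 < ε) :
    ∀ᶠ T : ℝ in atTop, ∀ U : ℝ, Adm T U → T ^ u ≤ U →
      ‖(∫ z : Fin k ⊕ Fin k → ℝ,
          (∏ e, fe p q e (z e)) * Pool.Agent.Q80.TM.SS k T U (fun e => (z e : ℂ))) -
        ((U * √Real.pi * Real.log T ^ (k ^ 2) : ℝ) : ℂ) * mt p q‖ ≤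
        ε * (U * Real.log T ^ (k ^ 2)) := by
  obtain ⟨C1, B, hC1, herr⟩ := err hp hq hξ hη
  obtain ⟨Ca, hCa, ha⟩ := ah_bd hp
  obtain ⟨Cb, hCb, hb⟩ := ah_bd hq
  set X : ℝ := (∑ i, ξ i) + ∑ i, η i with hX
  have hs1 : 0 ≤ ∑ i, ξ i := Finset.sum_nonneg fun i _ => hξ i
  have hs2 : 0 ≤ ∑ i, η i := Finset.sum_nonneg fun i _ => hη i
  have hX0 : 0 ≤ X := by linarith
  have hξX : ∀ i, ξ i ≤ X := fun i => by
    have := Finset.single_le_sum (f := ξ) (fun i _ => hξ i) (Finset.mem_univ i); linarith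
  have hηX : ∀ i, η i ≤ X := fun i => by
    have := Finset.single_le_sum (f := η) (fun i _ => hη i) (Finset.mem_univ i); linarith
  have hK := Q97.MM.KK_nonneg (4 * k)
  have hpi1 : 0 ≤ √Real.pi := Real.sqrt_nonneg _
  -- small quantities
  have l1 : Tendsto (fun T : ℝ => C1 * (T⁻¹ + T ^ B * Real.exp (-(Real.log T ^ 2 / 8))) *
      Q97.MM.KK (4 * k)) atTop (𝓝 0) := by
    simpa using ((kap_lim B).const_mul C1).mul_const (Q97.MM.KK (4 * k))
  have l2 := off_lim (√Real.pi * (2 ^ (2 * k + 2) * (Ca * Cb))) (2 * X * k) (2 * (u - ∑ i, ξ i))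
    (by linarith)
  have l3 := (diag_lim' hp hq).comp Real.tendsto_log_atTop
  have l3' : ∀ᶠ T : ℝ in atTop, ‖(∫ z : Fin k ⊕ Fin k → ℝ,
      GG p q z * zab (az (Real.log T)⁻¹ z) (bz (Real.log T)⁻¹ z)) / (Real.log T : ℂ) ^ (k ^ 2) -
        mt p q‖ < ε / (3 * (√Real.pi + 1)) := by
    have := (tendsto_iff_norm_sub_tendsto_zero.1 l3).eventually
      (gt_mem_nhds (show 0 < ε / (3 * (√Real.pi + 1)) by positivity))
    exact this
  filter_upwards [l1.eventually (gt_mem_nhds (show 0 < ε / 3 by positivity)),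
    l2.eventually (gt_mem_nhds (show 0 < ε / 3 by positivity)), l3', eventually_ge_atTop 4,
    Real.tendsto_log_atTop.eventually_gt_atTop 8] with T g1 g2 g3 hT hL8 U hA hUu
  have hT0 : 0 < T := by linarith
  have hT1 : 1 ≤ T := by linarith
  have hU := hA.pos
  set L := Real.log T with hL
  have hL0 : 0 < L := by linarith
  have hLk : 1 ≤ L ^ (k ^ 2) := one_le_pow₀ (by linarith)
  have hTX : ∀ a : ℝ, Real.exp (a * L) = T ^ a := by
    intro a
    rw [mul_comm, hL, ← Real.rpow_def_of_pos hT0]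
  set N : ℕ := ⌊T ^ X⌋₊ + 1 with hN
  have hN1 : T ^ X < N := by
    rw [hN]; push_cast; exact Nat.lt_floor_add_one _
  have hTX1 : 1 ≤ T ^ X := Real.one_le_rpow hT1 hX0
  have hN2 : (N : ℝ) ≤ 2 * T ^ X := by
    have := Nat.floor_le (show 0 ≤ T ^ X by positivity)
    rw [hN]; push_cast; linarith
  have hmono : ∀ a : ℝ, a ≤ X → Real.exp (a * L) < N := by
    intro a haX
    rw [hTX]
    exact (Real.rpow_le_rpow_of_exponent_le hT1 haX).trans_lt hN1
  set M : ℕ := N ^ k + 1 with hM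
  have hNM : N ^ k < M := Nat.lt_succ_self _
  have hM2 : (M : ℝ) ≤ 2 ^ (k + 1) * T ^ (X * k) := by
    have h1 : (N : ℝ) ^ k ≤ (2 * T ^ X) ^ k := by gcongr
    have h2 : (2 * T ^ X) ^ k = 2 ^ k * T ^ (X * k) := by
      rw [mul_pow, ← Real.rpow_natCast (T ^ X), ← Real.rpow_mul hT0.le]
    have h3 : 1 ≤ (2:ℝ) ^ k * T ^ (X * k) := by
      have := one_le_pow₀ (show (1:ℝ) ≤ 2 by norm_num) (n := k)
      have := Real.one_le_rpow hT1 (show 0 ≤ X * k by positivity)
      nlinarith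
    rw [hM]
    push_cast
    rw [pow_succ]
    linarith
  have hexpM : Real.exp (L * ∑ i, ξ i) < M := by
    rw [mul_comm]
    refine (hmono _ (by linarith)).trans_le ?_
    have h1 : N ≤ N ^ k := Nat.le_self_pow (by omega) N
    rw [hM]
    exact_mod_cast h1.trans (Nat.le_succ _)
  have hdp := dpe_prod hp hq hL0 (fun i => hmono _ (hξX i)) (fun i => hmono _ (hηX i)) hNM
  -- the comparison with the smoothed factors
  have hdc : Continuous (fun t : ℝ => (∏ e, dpe p q L t e) * (wt T U t : ℂ)) := by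
    simp only [hdp]
    exact ((pol_cont M _).mul (Complex.continuous_conj.comp (pol_cont M _))).mul
      (Complex.continuous_ofReal.comp (wt_cont T U))
  have hdi : Integrable (fun t : ℝ => (∏ e, dpe p q L t e) * (wt T U t : ℂ)) := by
    refine ((wt_int hU T).const_mul ((∑ n ∈ Finset.range M, ‖ah p L n‖) *
      ∑ n ∈ Finset.range M, ‖ah q L n‖)).mono' hdc.aestronglyMeasurable
      (Eventually.of_forall fun t => ?_)
    rw [hdp, norm_mul, norm_mul, RCLike.norm_conj, Complex.norm_real,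
      Real.norm_of_nonneg (wt_pos _ _ _).le]
    refine mul_le_mul_of_nonneg_right ?_ (wt_pos _ _ _).le
    exact mul_le_mul (pol_le _ _ _) (pol_le _ _ _) (norm_nonneg _)
      (Finset.sum_nonneg fun _ _ => norm_nonneg _)
  have hdb : ∀ t : ℝ, ‖((∏ e, sme p q L t e) - ∏ e, dpe p q L t e) * (wt T U t : ℂ)‖ ≤
      C1 * (T⁻¹ + T ^ B * Real.exp (-(L ^ 2 / 8))) *
          ((1 + |(t - T) / U|) ^ (4 * k) * Real.exp (-(((t - T) / U) ^ 2 / 2))) := by
    intro t
    rw [norm_mul, Complex.norm_real, Real.norm_of_nonneg (wt_pos _ _ _).le]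
    exact herr T U hT hA t
  have hdm : AEStronglyMeasurable (fun t : ℝ =>
      ((∏ e, sme p q L t e) - ∏ e, dpe p q L t e) * (wt T U t : ℂ)) volume := by
    have h1 : Continuous (fun t : ℝ => ∏ e, dpe p q L t e) := by
      simp only [hdp]
      exact (pol_cont M _).mul (Complex.continuous_conj.comp (pol_cont M _))
    exact ((sme_meas hp hq L).sub h1.aestronglyMeasurable).mul
      (Complex.continuous_ofReal.comp (wt_cont T U)).aestronglyMeasurable
  have hdi2 : Integrable (fun t : ℝ =>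
      ((∏ e, sme p q L t e) - ∏ e, dpe p q L t e) * (wt T U t : ℂ)) :=
    ((scaled_integrable (4 * k) T hU).const_mul _).mono' hdm (Eventually.of_forall hdb)
  have hE1 : ‖∫ t : ℝ, ((∏ e, sme p q L t e) - ∏ e, dpe p q L t e) * (wt T U t : ℂ)‖ ≤
      (ε / 3) * U := by
    refine (norm_integral_le_of_norm_le ((scaled_integrable (4 * k) T hU).const_mul _)
      (Eventually.of_forall hdb)).trans ?_
    rw [integral_const_mul, scaled_integral (4 * k) T hU]
    calc C1 * (T⁻¹ + T ^ B * Real.exp (-(L ^ 2 / 8))) * (U * Q97.MM.KK (4 * k)) =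
        (C1 * (T⁻¹ + T ^ B * Real.exp (-(L ^ 2 / 8))) * Q97.MM.KK (4 * k)) * U := by ring
      _ ≤ _ := by gcongr
  have hE2 : ∫ t : ℝ, (∏ e, sme p q L t e) * (wt T U t : ℂ) =
      (∫ t : ℝ, ((∏ e, sme p q L t e) - ∏ e, dpe p q L t e) * (wt T U t : ℂ)) +
        ∫ t : ℝ, (∏ e, dpe p q L t e) * (wt T U t : ℂ) := by
    rw [← integral_add hdi2 hdi]
    refine integral_congr_ae (Eventually.of_forall fun t => ?_)
    simp only
    ring
  -- the mean value theorem
  have hmv := mean (X := Real.exp (L * ∑ i, ξ i)) hU T M (ah_zero p L) (ah_zero q L)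
    (fun m hm => ah_supp hp hL0 hm) (Real.exp_pos _)
  have hE3 : ∫ t : ℝ, (∏ e, dpe p q L t e) * (wt T U t : ℂ) =
      ∫ t : ℝ, pol M (ah p L) t * (starRingEnd ℂ) (pol M (ah q L) t) * (wt T U t : ℂ) := by
    simp only [hdp]
  rw [← hE3, diag_int hp hq hL8 hexpM] at hmv
  have hoff : (U * √Real.pi * Real.exp (-(U ^ 2 / (16 * Real.exp (L * ∑ i, ξ i) ^ 2)))) *
        ((∑ m ∈ Finset.range M, ‖ah p L m‖) * ∑ n ∈ Finset.range M, ‖ah q L n‖) ≤ (ε / 3) * U := by
    have h1 : ∑ m ∈ Finset.range M, ‖ah p L m‖ ≤ M * Ca := by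
      refine (Finset.sum_le_sum fun m _ => ha L m).trans (le_of_eq ?_)
      rw [Finset.sum_const, Finset.card_range, nsmul_eq_mul]
    have h2 : ∑ m ∈ Finset.range M, ‖ah q L m‖ ≤ M * Cb := by
      refine (Finset.sum_le_sum fun m _ => hb L m).trans (le_of_eq ?_)
      rw [Finset.sum_const, Finset.card_range, nsmul_eq_mul]
    have h3 : T ^ (2 * (u - ∑ i, ξ i)) / 16 ≤ U ^ 2 / (16 * Real.exp (L * ∑ i, ξ i) ^ 2) := by
      have e1 : Real.exp (L * ∑ i, ξ i) = T ^ (∑ i, ξ i) := by rw [mul_comm, hTX]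
      rw [e1, show 2 * (u - ∑ i, ξ i) = (u + u) - ((∑ i, ξ i) + ∑ i, ξ i) by ring,
        Real.rpow_sub hT0, Real.rpow_add hT0, Real.rpow_add hT0, div_div, ← sq, ← sq, mul_comm (16:ℝ)]
      gcongr
    have h4 : Real.exp (-(U ^ 2 / (16 * Real.exp (L * ∑ i, ξ i) ^ 2))) ≤
        Real.exp (-(T ^ (2 * (u - ∑ i, ξ i)) / 16)) := by
      apply Real.exp_le_exp.2
      linarith
    have h5 : (M : ℝ) * M ≤ 2 ^ (2 * k + 2) * T ^ (2 * X * k) := by
      calc (M : ℝ) * M ≤ (2 ^ (k + 1) * T ^ (X * k)) * (2 ^ (k + 1) * T ^ (X * k)) := by gcongr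
        _ = 2 ^ (2 * k + 2) * (T ^ (X * k) * T ^ (X * k)) := by
            rw [show 2 * k + 2 = (k + 1) + (k + 1) by ring, pow_add]; ring
        _ = _ := by rw [← Real.rpow_add hT0]; congr 2; ring
    have hMnn : (0:ℝ) ≤ M := Nat.cast_nonneg _
    calc _ ≤ (U * √Real.pi * Real.exp (-(T ^ (2 * (u - ∑ i, ξ i)) / 16))) *
          ((M * Ca) * (M * Cb)) := by
          apply mul_le_mul _ _ (by positivity) (by positivity)
          · gcongr
          · exact mul_le_mul h1 h2 (Finset.sum_nonneg fun _ _ => norm_nonneg _) (by positivity)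
      _ = ((M : ℝ) * M) * (U * (√Real.pi * (Ca * Cb)) *
            Real.exp (-(T ^ (2 * (u - ∑ i, ξ i)) / 16))) := by ring
      _ ≤ (2 ^ (2 * k + 2) * T ^ (2 * X * k)) * (U * (√Real.pi * (Ca * Cb)) *
            Real.exp (-(T ^ (2 * (u - ∑ i, ξ i)) / 16))) := by gcongr
      _ = (√Real.pi * (2 ^ (2 * k + 2) * (Ca * Cb)) * (T ^ (2 * X * k) *
            Real.exp (-(T ^ (2 * (u - ∑ i, ξ i)) / 16)))) * U := by ring
      _ ≤ _ := by gcongr
  have hmv2 := hmv.trans hoff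
  -- the diagonal
  have hLc : (L : ℂ) ^ (k ^ 2) ≠ 0 := pow_ne_zero _ (Complex.ofReal_ne_zero.2 hL0.ne')
  have hE4 : ‖((U * √Real.pi : ℝ) : ℂ) * (∫ z : Fin k ⊕ Fin k → ℝ,
      GG p q z * zab (az L⁻¹ z) (bz L⁻¹ z)) -
      ((U * √Real.pi * L ^ (k ^ 2) : ℝ) : ℂ) * mt p q‖ ≤ (ε / 3) * (U * L ^ (k ^ 2)) := by
    have e1 : ((U * √Real.pi : ℝ) : ℂ) * (∫ z : Fin k ⊕ Fin k → ℝ,
        GG p q z * zab (az L⁻¹ z) (bz L⁻¹ z)) - ((U * √Real.pi * L ^ (k ^ 2) : ℝ) : ℂ) * mt p q =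
        ((U * √Real.pi * L ^ (k ^ 2) : ℝ) : ℂ) * ((∫ z : Fin k ⊕ Fin k → ℝ,
          GG p q z * zab (az L⁻¹ z) (bz L⁻¹ z)) / (L : ℂ) ^ (k ^ 2) - mt p q) := by
      push_cast
      field_simp
    rw [e1, norm_mul, Complex.norm_real, Real.norm_of_nonneg (by positivity)]
    have h1 : √Real.pi * (ε / (3 * (√Real.pi + 1))) ≤ ε / 3 := by
      rw [← mul_div_assoc, div_le_div_iff₀ (by positivity) (by norm_num)]
      nlinarith
    calc U * √Real.pi * L ^ (k ^ 2) * _ ≤ U * √Real.pi * L ^ (k ^ 2) *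
          (ε / (3 * (√Real.pi + 1))) := by
          apply mul_le_mul_of_nonneg_left g3.le (by positivity)
      _ = (√Real.pi * (ε / (3 * (√Real.pi + 1)))) * (U * L ^ (k ^ 2)) := by ring
      _ ≤ _ := by gcongr
  rw [fub hp hq hT hA, hE2]
  have hU1 : U ≤ U * L ^ (k ^ 2) := by nlinarith
  have hfin : ∀ a b c d : ℂ, ‖a‖ ≤ (ε / 3) * U → ‖b - c‖ ≤ (ε / 3) * U →
      ‖c - d‖ ≤ (ε / 3) * (U * L ^ (k ^ 2)) → ‖(a + b) - d‖ ≤ ε * (U * L ^ (k ^ 2)) := by
    intro a b c d h1 h2 h3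
    have e : (a + b) - d = a + (b - c) + (c - d) := by ring
    rw [e]
    refine (norm_add_le _ _).trans ?_
    have h4 := norm_add_le a (b - c)
    nlinarith
  exact hfin _ _ _ _ hE1 hmv2 hE4

end

end Q80.VS
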