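import Pool.Agent.Q80.VS.Lm

set_option autoImplicit false

/-! A test function with positive main term, and the identification of the limits. -/

namespace Q80.VS

open MeasureTheory Filter Topology Complex Set
open scoped ContDiff
open Q97.MM (Adm wt wt_pos pt JJ M0)
open Pool.Agent.W182.KO (TF P P_bound P_diff one_add_inv_sq_int)
open Pool.Agent.Q80.TM (hs seq_ev Ps Ps_symm JJ_pos)

noncomputable section

variable {k : ℕ}

theorem mm_eq (k : ℕ) : mm k = volume.restrict (Set.univ.pi fun _ : Fin k × Fin k => Ioi (0:ℝ)) := by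
  unfold mm
  rw [volume_pi, Measure.restrict_pi_pi]

theorem rs_total (u : Fin k × Fin k → ℝ) : ∑ e, rs u e = ∑ x, 2 * u x := by
  rw [Fintype.sum_sum_type, Fintype.sum_prod_type]
  have e1 : ∑ j : Fin k, rs u (Sum.inr j) = ∑ i : Fin k, ∑ j : Fin k, u (i, j) := by
    rw [Finset.sum_comm]
    rfl
  have e2 : ∑ i : Fin k, rs u (Sum.inl i) = ∑ i : Fin k, ∑ j : Fin k, u (i, j) := rfl
  rw [e1, e2, ← two_mul]
  simp only [Finset.mul_sum]

theorem bump (hk : 1 ≤ k) {u : ℝ} (hu : 0 < u) : ∃ (f : ℝ → ℂ) (θ τ : ℝ), TF θ f ∧ 0 ≤ θ ∧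
    ∑ _i : Fin k, θ < u ∧ 0 < τ ∧ TT (k := k) (fun _ => f) (fun _ => f) = (τ : ℂ) := by
  have hk0 : (0 : ℝ) < k := by exact_mod_cast hk
  set θ : ℝ := u / (2 * k) with hθ
  have hθ0 : 0 < θ := by positivity
  obtain ⟨g, hg1, hg2, hg3, hg4, hg5⟩ := exists_contDiff_tsupport_subset (n := (⊤ : ℕ∞))
    (s := Ioo 0 θ) (x := θ / 2) (Ioo_mem_nhds (by linarith) (by linarith))
  have hg0 : ∀ x, 0 ≤ g x ∧ g x ≤ 1 := fun x => by
    have := hg4 (mem_range_self x)
    exact ⟨this.1, this.2⟩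
  have hgz : ∀ x, θ < x → g x = 0 := by
    intro x hx
    by_contra hcon
    have := hg1 (subset_tsupport g hcon)
    linarith [this.2]
  have hgc : Continuous g := hg3.continuous
  set G : (Fin k × Fin k → ℝ) → ℝ := fun v => ∏ e, g (rs v e) with hG
  have hGc : Continuous G := continuous_finsetProd _ fun e _ => hgc.comp (rs_cont e)
  have hG0 : ∀ v, 0 ≤ G v := fun v => Finset.prod_nonneg fun e _ => (hg0 _).1
  have hgexp : ∀ r, g r ≤ Real.exp (θ - r) := by
    intro r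
    by_cases h : θ < r
    · rw [hgz r h]; exact (Real.exp_pos _).le
    · push Not at h
      exact (hg0 r).2.trans (Real.one_le_exp (by linarith))
  have hGi : Integrable G (mm k) := by
    refine (mm_exp_int.const_mul (Real.exp (∑ _e : Fin k ⊕ Fin k, θ))).mono'
      hGc.aestronglyMeasurable (Eventually.of_forall fun v => ?_)
    rw [Real.norm_of_nonneg (hG0 v), ← Real.exp_sum, ← Real.exp_add, Finset.sum_neg_distrib,
      ← rs_total, ← sub_eq_add_neg, ← Finset.sum_sub_distrib, Real.exp_sum]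
    exact Finset.prod_le_prod (fun e _ => (hg0 _).1) fun e _ => hgexp _
  have hpos : 0 < ∫ v, G v ∂(mm k) := by
    rw [integral_pos_iff_support_of_nonneg hG0 hGi]
    set V : Set (Fin k × Fin k → ℝ) := (Set.univ.pi fun _ : Fin k × Fin k => Ioi (0:ℝ)) ∩
      {v | G v ≠ 0} with hV
    have hVo : IsOpen V := (isOpen_set_pi finite_univ fun _ _ => isOpen_Ioi).inter
      (isOpen_ne_fun hGc continuous_const)
    have hVn : V.Nonempty := by
      refine ⟨fun _ => θ / (2 * k), ?_, ?_⟩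
      · intro x _
        show 0 < θ / (2 * k)
        positivity
      · have h1 : ∀ e : Fin k ⊕ Fin k, rs (fun _ : Fin k × Fin k => θ / (2 * k)) e = θ / 2 := by
          rintro (i | j)
          · show ∑ _j : Fin k, θ / (2 * k) = θ / 2
            rw [Finset.sum_const, Finset.card_univ, Fintype.card_fin, nsmul_eq_mul]
            field_simp
          · show ∑ _j : Fin k, θ / (2 * k) = θ / 2
            rw [Finset.sum_const, Finset.card_univ, Fintype.card_fin, nsmul_eq_mul]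
            field_simp
        show ∏ e, g (rs _ e) ≠ 0
        simp only [h1, hg5, Finset.prod_const_one]
        exact one_ne_zero
    have h2 : 0 < volume V := hVo.measure_pos volume hVn
    have h3 : volume V ≤ mm k (Function.support G) := by
      rw [mm_eq, Measure.restrict_apply' (MeasurableSet.univ_pi fun _ => measurableSet_Ioi)]
      refine measure_mono fun v hv => ⟨hv.2, hv.1⟩
    exact h2.trans_le h3
  refine ⟨fun x => (g x : ℂ), θ, ∫ v, G v ∂(mm k), ⟨?_, ?_, ?_⟩, hθ0.le, ?_, hpos, ?_⟩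
  · exact Complex.ofRealCLM.contDiff.comp hg3
  · exact hg2.comp_left Complex.ofReal_zero
  · intro ξ hξ
    simp only [hgz ξ hξ, Complex.ofReal_zero]
  · rw [Finset.sum_const, Finset.card_univ, Fintype.card_fin, nsmul_eq_mul, hθ]
    field_simp
    linarith
  · unfold TT
    rw [← integral_complex_ofReal]
    refine integral_congr_ae (Eventually.of_forall fun v => ?_)
    simp only [hG]
    rw [Complex.ofReal_prod]
    refine Finset.prod_congr rfl fun e _ => ?_
    rcases e with i | j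
    · rfl
    · show (starRingEnd ℂ) ((g (rs v (Sum.inr j)) : ℝ) : ℂ) = _
      rw [Complex.conj_ofReal]

/-- identification of the limits near the first vertex -/
theorem vertex (hk : 1 ≤ k) {T U : ℕ → ℝ} {Φ : (Fin k ⊕ Fin k → ℂ) → ℂ} {u : ℝ} (hu : 0 < u)
    (hT : Tendsto T atTop atTop)
    (hU : ∀ j, 1 ≤ U j ∧ U j ≤ T j / Real.log (T j)) (hUu : ∀ j, T j ^ u ≤ U j)
    (hΦ : ∀ y, Tendsto (fun j => hs k T U j y) atTop (𝓝 (Φ y))) :
    ∃ lam : ℝ, 0 ≤ lam ∧ Tendsto (fun j => ak k * rr k (T j) (U j)) atTop (𝓝 lam) ∧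
      ∀ (ξ η : Fin k → ℝ) (p q : Fin k → ℝ → ℂ), (∀ i, TF (ξ i) (p i)) → (∀ i, TF (η i) (q i)) →
        (∀ i, 0 ≤ ξ i) → (∀ i, 0 ≤ η i) → ∑ i, ξ i < u →
        ∫ z : Fin k ⊕ Fin k → ℝ, (∏ e, fe p q e (z e)) * Φ (fun e => (z e : ℂ)) =
          (lam : ℂ) * TT p q := by
  obtain ⟨f, θ, τ, hf, hθ, hθu, hτ, hTT⟩ := bump (k := k) hk hu
  have hak := ak_pos hk
  have hr0 : ∀ᶠ j in atTop, 0 ≤ rr k (T j) (U j) := by
    filter_upwards [seq_ev (JJ_pos k) hT hU, hT.eventually_ge_atTop 1] with j h1 h2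
    unfold rr
    have h3 : 0 ≤ Real.log (T j) := Real.log_nonneg h2
    have h4 := (hU j).1
    positivity
  have hmt : ∀ p q : Fin k → ℝ → ℂ, mt p q = (ak k : ℂ) * TT p q := fun p q => by
    unfold mt
    rw [FH_zero hk]
  -- boundedness of the ratio
  set F0 : ℂ := ∫ z : Fin k ⊕ Fin k → ℝ, (∏ e, fe (fun _ => f) (fun _ => f) e (z e)) *
    Φ (fun e => (z e : ℂ)) with hF0
  have hm0 : mt (k := k) (fun _ => f) (fun _ => f) = ((ak k * τ : ℝ) : ℂ) := by
    rw [hmt, hTT]; push_cast; rfl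
  have hA := test_lim hk hu hT hU hUu hΦ (fun _ : Fin k => hf) (fun _ : Fin k => hf)
  have hakτ : 0 < ak k * τ := mul_pos hak hτ
  have hbd : ∃ R : ℝ, 0 ≤ R ∧ ∀ᶠ j in atTop, rr k (T j) (U j) ≤ R := by
    refine ⟨2 * (‖F0‖ + 1) / (ak k * τ), by positivity, ?_⟩
    have h1 := tested hk hT hU hUu (fun _ : Fin k => hf) (fun _ : Fin k => hf) (fun _ => hθ)
      (fun _ => hθ) hθu (half_pos hakτ)
    have h2 := hA.norm.eventually (gt_mem_nhds (lt_add_one ‖F0‖))
    filter_upwards [h1, h2, hr0] with j h3 h4 h5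
    rw [hm0] at h3
    have h6 : ‖(rr k (T j) (U j) : ℂ) * ((ak k * τ : ℝ) : ℂ)‖ = rr k (T j) (U j) * (ak k * τ) := by
      rw [norm_mul, Complex.norm_real, Complex.norm_real, Real.norm_of_nonneg h5,
        Real.norm_of_nonneg hakτ.le]
    have h7 := norm_sub_norm_le ((rr k (T j) (U j) : ℂ) * ((ak k * τ : ℝ) : ℂ))
      (∫ z : Fin k ⊕ Fin k → ℝ, (∏ e, fe (fun _ => f) (fun _ => f) e (z e)) *
        hs k T U j (fun e => (z e : ℂ)))
    rw [h6, norm_sub_rev] at h7
    rw [le_div_iff₀ hakτ]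
    nlinarith
  obtain ⟨R, hR, hRb⟩ := hbd
  -- convergence of the main terms
  have hconv : ∀ (ξ η : Fin k → ℝ) (p q : Fin k → ℝ → ℂ), (∀ i, TF (ξ i) (p i)) →
      (∀ i, TF (η i) (q i)) → (∀ i, 0 ≤ ξ i) → (∀ i, 0 ≤ η i) → ∑ i, ξ i < u →
      Tendsto (fun j => (rr k (T j) (U j) : ℂ) * mt p q) atTop
        (𝓝 (∫ z : Fin k ⊕ Fin k → ℝ, (∏ e, fe p q e (z e)) * Φ (fun e => (z e : ℂ)))) := by
    intro ξ η p q hp hq hξ hη hs1
    have h1 := test_lim hk hu hT hU hUu hΦ hp hq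
    have h2 : Tendsto (fun j => (∫ z : Fin k ⊕ Fin k → ℝ, (∏ e, fe p q e (z e)) *
        hs k T U j (fun e => (z e : ℂ))) - (rr k (T j) (U j) : ℂ) * mt p q) atTop (𝓝 0) := by
      rw [Metric.tendsto_nhds]
      intro ε hε
      filter_upwards [tested hk hT hU hUu hp hq hξ hη hs1 (show 0 < ε / (2 * (R + 1)) by positivity),
        hRb, hr0] with j h3 h4 h5
      rw [dist_zero_right]
      refine h3.trans_lt ?_
      calc ε / (2 * (R + 1)) * rr k (T j) (U j) ≤ ε / (2 * (R + 1)) * (R + 1) := by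
            gcongr; linarith
        _ = ε / 2 := by field_simp
        _ < ε := by linarith
    have h3 := h1.sub h2
    simpa using h3
  have h0 := hconv _ _ _ _ (fun _ : Fin k => hf) (fun _ : Fin k => hf) (fun _ => hθ)
      (fun _ => hθ) hθu
  rw [hm0] at h0
  have h1 : Tendsto (fun j => ((rr k (T j) (U j) : ℝ) : ℂ)) atTop
      (𝓝 (F0 / ((ak k * τ : ℝ) : ℂ))) := by
    have hne : ((ak k * τ : ℝ) : ℂ) ≠ 0 := Complex.ofReal_ne_zero.2 hakτ.ne'
    refine (h0.div_const ((ak k * τ : ℝ) : ℂ)).congr fun j => ?_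
    field_simp
  have h2 : Tendsto (fun j => rr k (T j) (U j)) atTop (𝓝 (F0 / ((ak k * τ : ℝ) : ℂ)).re) := by
    have := (Complex.continuous_re.tendsto _).comp h1
    exact this
  refine ⟨ak k * (F0 / ((ak k * τ : ℝ) : ℂ)).re, ?_, h2.const_mul _, ?_⟩
  · exact mul_nonneg hak.le (ge_of_tendsto h2 hr0)
  · intro ξ η p q hp hq hξ hη hs1
    have h3 := hconv ξ η p q hp hq hξ hη hs1
    have h4 : Tendsto (fun j => (rr k (T j) (U j) : ℂ) * mt p q) atTop
        (𝓝 ((((F0 / ((ak k * τ : ℝ) : ℂ)).re : ℝ) : ℂ) * mt p q)) :=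
      ((Complex.continuous_ofReal.tendsto _).comp h2).mul_const _
    rw [tendsto_nhds_unique h3 h4, hmt]
    push_cast
    ring

end

end Q80.VS
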