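import Pool.Agent.Q80.VS.Exp
import Pool.Agent.TH612.CF.Dir
import Pool.Agent.TH612.CF.Sw

set_option autoImplicit false

/-! The diagonal as an integral of the diagonal Dirichlet series. -/

namespace Q80.VS

open MeasureTheory Filter Topology Complex Set
open Q97.MM Q80.SP
open Pool.Agent.W182.KO (TF tau dk P P_bound P_diff P_inv one_add_inv_sq_int)
open Pool.Agent.TH612.CF (dg dg_zero dg_le dg_summable zh_eq FH FH_cont FH_le BF Tb zab tau_cont)

noncomputable section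

variable {k : ℕ}

/-- the exponents -/
def we : Fin k ⊕ Fin k → ℝ → ℂ := Sum.elim (fun _ x => 1 + x * I) (fun _ y => 1 - y * I)

/-- the weights -/
def ge (p q : Fin k → ℝ → ℂ) : Fin k ⊕ Fin k → ℝ → ℂ :=
  Sum.elim (fun i x => P (p i) (1 + x * I) / (2 * Real.pi))
    (fun j y => (starRingEnd ℂ) (P (q j) (1 + y * I) / (2 * Real.pi)))

/-- the test functions -/
def pq (p q : Fin k → ℝ → ℂ) : Fin k ⊕ Fin k → ℝ → ℂ :=
  Sum.elim p (fun j x => (starRingEnd ℂ) (q j x))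

theorem P_one_cont {ξ1 : ℝ} {ψ : ℝ → ℂ} (h : TF ξ1 ψ) :
    Continuous (fun x : ℝ => P ψ (1 + x * I) / (2 * Real.pi)) := by
  have hP : Continuous (P ψ) := (P_diff h).continuous
  exact (hP.comp (by fun_prop)).div_const _

theorem P_one_int {ξ1 : ℝ} {ψ : ℝ → ℂ} (h : TF ξ1 ψ) :
    Integrable (fun x : ℝ => P ψ (1 + x * I) / (2 * Real.pi)) := by
  have h1 := (P_line_int h (σ := 1) (L := 1) zero_le_one one_pos).div_const (2 * Real.pi : ℂ)
  refine h1.congr (Eventually.of_forall fun x => ?_)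
  simp only [Complex.ofReal_one, one_mul]

theorem ge_cont {ξ η : Fin k → ℝ} {p q : Fin k → ℝ → ℂ} (hp : ∀ i, TF (ξ i) (p i))
    (hq : ∀ i, TF (η i) (q i)) (e : Fin k ⊕ Fin k) : Continuous (ge p q e) := by
  rcases e with i | j
  · exact P_one_cont (hp i)
  · exact Complex.continuous_conj.comp (P_one_cont (hq j))

theorem ge_int {ξ η : Fin k → ℝ} {p q : Fin k → ℝ → ℂ} (hp : ∀ i, TF (ξ i) (p i))
    (hq : ∀ i, TF (η i) (q i)) (e : Fin k ⊕ Fin k) : Integrable (ge p q e) := by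
  rcases e with i | j
  · exact P_one_int (hp i)
  · have h1 := P_one_int (hq j)
    refine h1.norm.mono' (ge_cont hp hq (Sum.inr j)).aestronglyMeasurable
      (Eventually.of_forall fun x => ?_)
    show ‖(starRingEnd ℂ) (P (q j) (1 + x * I) / (2 * Real.pi))‖ ≤ _
    rw [RCLike.norm_conj]

theorem P_one_inv {ξ1 : ℝ} {ψ : ℝ → ℂ} (h : TF ξ1 ψ) (lam : ℝ) :
    ∫ x : ℝ, P ψ (1 + x * I) / (2 * Real.pi) * cexp (-(lam * (1 + x * I))) = ψ lam := by
  have h1 := P_inv h (σ := 1) (L := 1) zero_le_one one_pos lam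
  have hpi : (Real.pi : ℂ) ≠ 0 := by exact_mod_cast Real.pi_ne_zero
  have e1 : ∀ x : ℝ, P ψ (1 + x * I) / (2 * Real.pi) * cexp (-(lam * (1 + x * I))) =
      (cexp (-(lam : ℂ)) / (2 * Real.pi)) * (P ψ (((1 : ℝ) : ℂ) + ((1 : ℝ) : ℂ) * x * I) *
        cexp (-(lam * ((1 : ℝ) : ℂ) * x) * I)) := by
    intro x
    have e2 : cexp (-(lam * (1 + x * I))) = cexp (-(lam : ℂ)) * cexp (-(lam * ((1 : ℝ) : ℂ) * x) * I) := by
      rw [← Complex.exp_add]
      congr 1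
      push_cast
      ring
    rw [e2]
    simp only [Complex.ofReal_one, one_mul]
    ring
  simp only [e1]
  rw [integral_const_mul, h1]
  have e3 : cexp (-(lam : ℂ)) * cexp ((lam : ℂ) * ((1 : ℝ) : ℂ)) = 1 := by
    rw [← Complex.exp_add]
    simp
  calc cexp (-(lam : ℂ)) / (2 * Real.pi) * (((2 * Real.pi / 1 : ℝ) : ℂ) *
        (ψ lam * cexp ((lam : ℂ) * ((1 : ℝ) : ℂ)))) =
        (cexp (-(lam : ℂ)) * cexp ((lam : ℂ) * ((1 : ℝ) : ℂ))) * ψ lam *
          (((2 * Real.pi / 1 : ℝ) : ℂ) / (2 * Real.pi)) := by ring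
    _ = ψ lam := by
        rw [e3, one_mul]
        push_cast
        field_simp

theorem ge_inv {ξ η : Fin k → ℝ} {p q : Fin k → ℝ → ℂ} (hp : ∀ i, TF (ξ i) (p i))
    (hq : ∀ i, TF (η i) (q i)) (e : Fin k ⊕ Fin k) (lam : ℝ) :
    ∫ x : ℝ, ge p q e x * cexp (-(lam * we e x)) = pq p q e lam := by
  rcases e with i | j
  · exact P_one_inv (hp i) lam
  · have h1 := congrArg (starRingEnd ℂ) (P_one_inv (hq j) lam)
    rw [← integral_conj] at h1
    show ∫ x : ℝ, (starRingEnd ℂ) (P (q j) (1 + x * I) / (2 * Real.pi)) *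
      cexp (-(lam * (1 - x * I))) = (starRingEnd ℂ) (q j lam)
    rw [← h1]
    refine integral_congr_ae (Eventually.of_forall fun x => ?_)
    simp only [map_mul]
    congr 1
    rw [← Complex.exp_conj]
    congr 1
    simp only [map_neg, map_mul, map_add, map_one, Complex.conj_ofReal, Complex.conj_I]
    ring

theorem we_re (e : Fin k ⊕ Fin k) (x : ℝ) : (we e x).re = 1 := by
  rcases e with i | j
  · show (1 + (x : ℂ) * I).re = 1
    simp
  · show (1 - (x : ℂ) * I).re = 1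
    simp

theorem we_cont (e : Fin k ⊕ Fin k) : Continuous (we e) := by
  rcases e with i | j
  · show Continuous (fun x : ℝ => (1 : ℂ) + x * I)
    fun_prop
  · show Continuous (fun x : ℝ => (1 : ℂ) - x * I)
    fun_prop

/-- the product weight -/
def GG (p q : Fin k → ℝ → ℂ) (z : Fin k ⊕ Fin k → ℝ) : ℂ := ∏ e, ge p q e (z e)

theorem GG_int {ξ η : Fin k → ℝ} {p q : Fin k → ℝ → ℂ} (hp : ∀ i, TF (ξ i) (p i))
    (hq : ∀ i, TF (η i) (q i)) : Integrable (GG p q) :=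
  Integrable.fintype_prod fun e => ge_int hp hq e

theorem GG_cont {ξ η : Fin k → ℝ} {p q : Fin k → ℝ → ℂ} (hp : ∀ i, TF (ξ i) (p i))
    (hq : ∀ i, TF (η i) (q i)) : Continuous (GG p q) := by
  unfold GG
  exact continuous_finsetProd _ fun e _ => (ge_cont hp hq e).comp (continuous_apply e)

/-- Fubini for one tuple of real exponents -/
theorem prod_inv {ξ η : Fin k → ℝ} {p q : Fin k → ℝ → ℂ} (hp : ∀ i, TF (ξ i) (p i))
    (hq : ∀ i, TF (η i) (q i)) (r : Fin k ⊕ Fin k → ℝ) :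
    ∫ z : Fin k ⊕ Fin k → ℝ, GG p q z * ∏ e, cexp (-(r e * we e (z e))) = ∏ e, pq p q e (r e) := by
  have h1 : ∀ z : Fin k ⊕ Fin k → ℝ, GG p q z * ∏ e, cexp (-(r e * we e (z e))) =
      ∏ e, ge p q e (z e) * cexp (-(r e * we e (z e))) := by
    intro z
    unfold GG
    rw [Finset.prod_mul_distrib]
  simp only [h1]
  rw [integral_fintype_prod_volume_eq_prod (fun e x => ge p q e x * cexp (-(r e * we e x)))]
  exact Finset.prod_congr rfl fun e _ => ge_inv hp hq e (r e)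

theorem exp_norm {r : ℝ} (e : Fin k ⊕ Fin k) (x : ℝ) :
    ‖cexp (-(r * we e x))‖ = Real.exp (-r) := by
  rw [Complex.norm_exp]
  congr 1
  rw [Complex.neg_re, Complex.re_ofReal_mul, we_re, mul_one]

theorem prod_int' {ξ η : Fin k → ℝ} {p q : Fin k → ℝ → ℂ} (hp : ∀ i, TF (ξ i) (p i))
    (hq : ∀ i, TF (η i) (q i)) (r : Fin k ⊕ Fin k → ℝ) :
    Integrable (fun z : Fin k ⊕ Fin k → ℝ => GG p q z * ∏ e, cexp (-(r e * we e (z e)))) := by
  refine ((GG_int hp hq).norm.mul_const (∏ e, Real.exp (-(r e)))).mono' ?_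
    (Eventually.of_forall fun z => ?_)
  · refine ((GG_cont hp hq).mul (continuous_finsetProd _ fun e _ => ?_)).aestronglyMeasurable
    have := (we_cont e).comp (continuous_apply (A := fun _ => ℝ) e)
    exact Complex.continuous_exp.comp (continuous_const.mul this).neg
  · rw [norm_mul, norm_prod]
    simp only [exp_norm]
    exact le_rfl

/-- the shifts -/
def az (u : ℝ) (z : Fin k ⊕ Fin k → ℝ) (j : Fin k) : ℂ := (z (Sum.inl j) - I) * u

/-- the shifts -/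
def bz (u : ℝ) (z : Fin k ⊕ Fin k → ℝ) (j : Fin k) : ℂ := (z (Sum.inr j) + I) * u

theorem ncpow {n : ℕ} (hn : n ≠ 0) (L : ℝ) (w : ℂ) :
    (n : ℂ) ^ (-(w * (L⁻¹ : ℝ))) = cexp (-(((Real.log n / L : ℝ) : ℂ) * w)) := by
  have hn' : (n : ℂ) ≠ 0 := by exact_mod_cast hn
  rw [Complex.cpow_def_of_ne_zero hn', ← Complex.natCast_log]
  congr 1
  push_cast
  ring

theorem dg_eq {L : ℝ} (z : Fin k ⊕ Fin k → ℝ) (n : ℕ) : dg (az L⁻¹ z) (bz L⁻¹ z) n =
    (n : ℂ)⁻¹ * ∑ f ∈ Nat.finMulAntidiag k n, ∑ g ∈ Nat.finMulAntidiag k n,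
      ∏ e, cexp (-(((Real.log ((Sum.elim f g e : ℕ) : ℝ) / L : ℝ) : ℂ) * we e (z e))) := by
  unfold dg tau
  rw [mul_comm (n : ℂ)⁻¹, mul_comm (∑ f ∈ Nat.finMulAntidiag k n, _) (∑ f ∈ Nat.finMulAntidiag k n, _),
    Finset.sum_mul_sum]
  congr 1
  refine Finset.sum_congr rfl fun f hf => Finset.sum_congr rfl fun g hg => ?_
  rw [Fintype.prod_sum_type]
  congr 1
  · refine Finset.prod_congr rfl fun j _ => ?_
    have e1 : -(I * az L⁻¹ z j) = -((1 + (z (Sum.inl j) : ℂ) * I) * (L⁻¹ : ℝ)) := by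
      unfold az
      linear_combination (L⁻¹ : ℝ) * Complex.I_sq
    show (f j : ℂ) ^ (-(I * az L⁻¹ z j)) = _
    rw [e1, ncpow (Nat.ne_zero_of_mem_finMulAntidiag hf j)]
    rfl
  · refine Finset.prod_congr rfl fun j _ => ?_
    have e1 : I * bz L⁻¹ z j = -((1 - (z (Sum.inr j) : ℂ) * I) * (L⁻¹ : ℝ)) := by
      unfold bz
      linear_combination (L⁻¹ : ℝ) * Complex.I_sq
    show (g j : ℂ) ^ (I * bz L⁻¹ z j) = _
    rw [e1, ncpow (Nat.ne_zero_of_mem_finMulAntidiag hg j)]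
    rfl

theorem dg_cont {L : ℝ} (n : ℕ) :
    Continuous (fun z : Fin k ⊕ Fin k → ℝ => dg (az L⁻¹ z) (bz L⁻¹ z) n) := by
  simp only [dg_eq]
  refine continuous_const.mul (continuous_finsetSum _ fun f _ => continuous_finsetSum _ fun g _ =>
    continuous_finsetProd _ fun e _ => ?_)
  have := (we_cont e).comp (continuous_apply (A := fun _ => ℝ) e)
  exact Complex.continuous_exp.comp (continuous_const.mul this).neg

/-- the diagonal terms -/
theorem ah_mul {ξ η : Fin k → ℝ} {p q : Fin k → ℝ → ℂ} (hp : ∀ i, TF (ξ i) (p i))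
    (hq : ∀ i, TF (η i) (q i)) (L : ℝ) (n : ℕ) :
    ah p L n * (starRingEnd ℂ) (ah q L n) =
      ∫ z : Fin k ⊕ Fin k → ℝ, GG p q z * dg (az L⁻¹ z) (bz L⁻¹ z) n := by
  have h1 : ah p L n * (starRingEnd ℂ) (ah q L n) = (n : ℂ)⁻¹ *
      ∑ f ∈ Nat.finMulAntidiag k n, ∑ g ∈ Nat.finMulAntidiag k n,
        ∏ e, pq p q e (Real.log ((Sum.elim f g e : ℕ) : ℝ) / L) := by
    unfold ah al
    rw [map_mul, Complex.conj_ofReal]
    have e1 : (((n : ℝ) ^ (-(1 / 2 : ℝ)) : ℝ) : ℂ) * (((n : ℝ) ^ (-(1 / 2 : ℝ)) : ℝ) : ℂ) =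
        (n : ℂ)⁻¹ := by
      rcases Nat.eq_zero_or_pos n with hn | hn
      · subst hn
        rw [← Complex.ofReal_mul]
        norm_num
      · rw [← Complex.ofReal_mul, ← Real.rpow_add (by exact_mod_cast hn)]
        norm_num [Real.rpow_neg_one]
    rw [map_sum]
    calc _ = ((((n : ℝ) ^ (-(1 / 2 : ℝ)) : ℝ) : ℂ) * (((n : ℝ) ^ (-(1 / 2 : ℝ)) : ℝ) : ℂ)) *
          ((∑ f ∈ Nat.finMulAntidiag k n, ∏ i, p i (Real.log (f i) / L)) *
            ∑ g ∈ Nat.finMulAntidiag k n, (starRingEnd ℂ) (∏ i, q i (Real.log (g i) / L))) := by ring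
      _ = _ := by
          rw [e1, Finset.sum_mul_sum]
          congr 1
          refine Finset.sum_congr rfl fun f _ => Finset.sum_congr rfl fun g _ => ?_
          rw [Fintype.prod_sum_type, map_prod]
          rfl
  rw [h1]
  simp only [dg_eq]
  have h2 : ∀ z : Fin k ⊕ Fin k → ℝ, GG p q z * ((n : ℂ)⁻¹ * ∑ f ∈ Nat.finMulAntidiag k n,
      ∑ g ∈ Nat.finMulAntidiag k n, ∏ e,
        cexp (-(((Real.log ((Sum.elim f g e : ℕ) : ℝ) / L : ℝ) : ℂ) * we e (z e)))) =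
      (n : ℂ)⁻¹ * ∑ f ∈ Nat.finMulAntidiag k n, ∑ g ∈ Nat.finMulAntidiag k n, (GG p q z *
        ∏ e, cexp (-(((Real.log ((Sum.elim f g e : ℕ) : ℝ) / L : ℝ) : ℂ) * we e (z e)))) := by
    intro z
    simp only [← Finset.mul_sum]
    ring
  simp only [h2]
  rw [integral_const_mul, integral_finsetSum]
  · congr 1
    refine Finset.sum_congr rfl fun f _ => ?_
    rw [integral_finsetSum]
    · refine Finset.sum_congr rfl fun g _ => ?_
      exact (prod_inv hp hq fun e => Real.log ((Sum.elim f g e : ℕ) : ℝ) / L).symm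
    · intro g _
      exact prod_int' hp hq fun e => Real.log ((Sum.elim f g e : ℕ) : ℝ) / L
  · intro f _
    refine integrable_finsetSum _ fun g _ => ?_
    exact prod_int' hp hq fun e => Real.log ((Sum.elim f g e : ℕ) : ℝ) / L

theorem az_im (u : ℝ) (z : Fin k ⊕ Fin k → ℝ) (j : Fin k) : (az u z j).im = -u := by
  unfold az; simp

theorem bz_im (u : ℝ) (z : Fin k ⊕ Fin k → ℝ) (j : Fin k) : (bz u z j).im = u := by
  unfold bz; simp

/-- the diagonal sum as an integral -/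
theorem diag_int {ξ η : Fin k → ℝ} {p q : Fin k → ℝ → ℂ} (hp : ∀ i, TF (ξ i) (p i))
    (hq : ∀ i, TF (η i) (q i)) {L : ℝ} (hL : 8 < L) {M : ℕ}
    (hM : Real.exp (L * ∑ i, ξ i) < M) :
    ∑ n ∈ Finset.range M, ah p L n * (starRingEnd ℂ) (ah q L n) =
      ∫ z : Fin k ⊕ Fin k → ℝ, GG p q z * zab (az L⁻¹ z) (bz L⁻¹ z) := by
  have hL0 : 0 < L := by linarith
  have hLi : 0 < L⁻¹ := inv_pos.2 hL0
  have hLi8 : L⁻¹ < 1 / 8 := by
    rw [inv_lt_comm₀ hL0 (by norm_num)]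
    linarith
  have him : ∀ z : Fin k ⊕ Fin k → ℝ, ∀ j, (az L⁻¹ z j).im ≤ -L⁻¹ ∧ L⁻¹ ≤ (bz L⁻¹ z j).im :=
    fun z j => ⟨(az_im _ _ _).le, (bz_im _ _ _).ge⟩
  have hTb : ∀ z : Fin k ⊕ Fin k → ℝ, Tb (1 / 8) (az L⁻¹ z) (bz L⁻¹ z) := by
    intro z j
    rw [az_im, bz_im, abs_neg, abs_of_pos hLi]
    exact ⟨hLi8.le, hLi8.le⟩
  obtain ⟨D, hD0, hD⟩ := dg_le k hLi
  have e1 : ∑ n ∈ Finset.range M, ah p L n * (starRingEnd ℂ) (ah q L n) =
      ∑' n : ℕ, ah p L n * (starRingEnd ℂ) (ah q L n) := by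
    refine (tsum_eq_sum fun n hn => ?_).symm
    rw [Finset.mem_range, not_lt] at hn
    by_contra hcon
    have h1 := ah_supp hp hL0 (left_ne_zero_of_mul hcon)
    have h2 : (M : ℝ) ≤ n := by exact_mod_cast hn
    linarith
  rw [e1]
  have e2 : ∀ z : Fin k ⊕ Fin k → ℝ, GG p q z * zab (az L⁻¹ z) (bz L⁻¹ z) =
      ∑' n : ℕ, GG p q z * dg (az L⁻¹ z) (bz L⁻¹ z) n := by
    intro z
    rw [tsum_mul_left, ← zh_eq (by norm_num) (hTb z) hLi (him z)]
    rfl
  simp only [e2, ah_mul hp hq]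
  have hn : ∀ (n : ℕ) (z : Fin k ⊕ Fin k → ℝ), ‖GG p q z * dg (az L⁻¹ z) (bz L⁻¹ z) n‖ ≤
      ‖GG p q z‖ * (D * (n : ℝ) ^ (-(1 + L⁻¹))) := by
    intro n z
    rw [norm_mul]
    exact mul_le_mul_of_nonneg_left (hD _ _ (him z) n) (norm_nonneg _)
  have hint : ∀ n : ℕ, Integrable (fun z : Fin k ⊕ Fin k → ℝ =>
      GG p q z * dg (az L⁻¹ z) (bz L⁻¹ z) n) := fun n =>
    ((GG_int hp hq).norm.mul_const (D * (n : ℝ) ^ (-(1 + L⁻¹)))).mono'
      ((GG_cont hp hq).mul (dg_cont n)).aestronglyMeasurable (Eventually.of_forall (hn n))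
  refine (hasSum_integral_of_summable_integral_norm hint ?_).tsum_eq
  have hs : Summable (fun n : ℕ => (∫ z, ‖GG p q z‖) * (D * (n : ℝ) ^ (-(1 + L⁻¹)))) :=
    ((Real.summable_nat_rpow.2 (by linarith)).mul_left D).mul_left _
  refine hs.of_nonneg_of_le (fun n => integral_nonneg fun z => norm_nonneg _) fun n => ?_
  rw [← integral_mul_const]
  exact integral_mono (hint n).norm ((GG_int hp hq).norm.mul_const _) (hn n)

end

end Q80.VS
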