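import Pool.Agent.Q80.VS.Mv
import Pool.Agent.Q80.ZM.Glo2

set_option autoImplicit false

/-! Polynomial growth of the normalised shifted moment in real shifts. -/

namespace Q80.VS

open MeasureTheory Filter Topology Complex Set
open Q97.MM (Adm wt wt_pos pt abs_le_scaled scaled_integrable scaled_integral JJ M0)
open Q80.SP
open Pool.Agent.W182.KO (TF P P_bound P_diff one_add_inv_sq_int)

noncomputable section

variable {k : ℕ}

theorem wt_split {T U v : ℝ} (hT : 4 ≤ T) (hA : Adm T U) (hv : |v| ≤ U / (4 * Real.log T)) (t : ℝ) :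
    wt T U t ≤ Real.exp 1 * wt T U (t + v) +
      Real.exp (-(Real.log T ^ 2 / 8)) * Real.exp (-(((t - T) / U) ^ 2 / 2)) := by
  have hU := hA.pos
  have hL1 := log_one hT
  set L := Real.log T with hL
  have hL0 : 0 < L := by linarith
  have hp1 : 0 < Real.exp 1 * wt T U (t + v) := mul_pos (Real.exp_pos _) (wt_pos _ _ _)
  have hp2 : 0 < Real.exp (-(L ^ 2 / 8)) * Real.exp (-(((t - T) / U) ^ 2 / 2)) := by positivity
  by_cases h : |(t - T) / U| ≤ L
  · refine le_trans ?_ (le_add_of_nonneg_right hp2.le)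
    unfold wt
    rw [← Real.exp_add]
    apply Real.exp_le_exp.2
    set x := (t - T) / U with hx
    have e1 : (t + v - T) / U = x + v / U := by rw [hx]; ring
    rw [e1]
    have h1 : |v / U| ≤ 1 / (4 * L) := by
      rw [abs_div, abs_of_pos hU, div_le_div_iff₀ hU (by positivity)]
      rw [le_div_iff₀ (by positivity)] at hv
      linarith
    have h2 : |x * (v / U)| ≤ 1 / 4 := by
      rw [abs_mul]
      calc |x| * |v / U| ≤ L * (1 / (4 * L)) := by gcongr
        _ = 1 / 4 := by field_simp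
    have h3 : |v / U| ≤ 1 / 4 := h1.trans (by
      apply div_le_div_of_nonneg_left (by norm_num) (by norm_num); linarith)
    have h4 : (v / U) ^ 2 ≤ 1 / 16 := by
      rw [← sq_abs]
      nlinarith [abs_nonneg (v / U)]
    have h5 := (abs_le.1 h2).2
    nlinarith
  · push Not at h
    refine le_trans ?_ (le_add_of_nonneg_left hp1.le)
    unfold wt
    rw [← Real.exp_add]
    apply Real.exp_le_exp.2
    have h1 : L ^ 2 ≤ ((t - T) / U) ^ 2 := by
      rw [← sq_abs ((t - T) / U)]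
      nlinarith
    nlinarith [sq_nonneg L]

theorem hz_shift_bd (k : ℕ) {T U : ℝ} (hT : 4 ≤ T) (hA : Adm T U) (v t : ℝ) :
    ‖hz k (t + v)‖ ^ 2 ≤ 180 ^ (2 * k) * (1 + |v|) ^ (4 * k) * (2 * T) ^ (4 * k) *
      (1 + |(t - T) / U|) ^ (4 * k) := by
  have hT0 : 0 ≤ T := by linarith
  have h1 := hz_sq_bd k (t + v)
  have h2 : 1 + |t + v| ≤ (1 + |v|) * (1 + |t|) := by
    have := abs_add_le t v
    nlinarith [abs_nonneg t, abs_nonneg v]
  have h4 := abs_le_scaled hA.pos hT0 hA.le t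
  have h5 : 1 + |t + v| ≤ (1 + |v|) * ((2 * T) * (1 + |(t - T) / U|)) := by
    refine h2.trans ?_
    apply mul_le_mul_of_nonneg_left _ (by positivity)
    refine h4.trans ?_
    apply mul_le_mul_of_nonneg_right _ (by positivity)
    linarith
  calc ‖hz k (t + v)‖ ^ 2 ≤ 180 ^ (2 * k) * (1 + |t + v|) ^ (4 * k) := h1
    _ ≤ 180 ^ (2 * k) * ((1 + |v|) * ((2 * T) * (1 + |(t - T) / U|))) ^ (4 * k) := by gcongr
    _ = _ := by rw [mul_pow, mul_pow]; ring

theorem hz_shift_int (k : ℕ) {T U : ℝ} (hT : 4 ≤ T) (hA : Adm T U) (v : ℝ) :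
    Integrable (fun t => ‖hz k (t + v)‖ ^ 2 * wt T U t) := by
  refine ((scaled_integrable (4 * k) T hA.pos).const_mul
    (180 ^ (2 * k) * (1 + |v|) ^ (4 * k) * (2 * T) ^ (4 * k))).mono' ?_
    (Eventually.of_forall fun t => ?_)
  · have h1 := hz_cont k
    have h2 := wt_cont T U
    exact (by fun_prop : Continuous (fun t => ‖hz k (t + v)‖ ^ 2 * wt T U t)).aestronglyMeasurable
  · rw [Real.norm_of_nonneg (mul_nonneg (by positivity) (wt_pos _ _ _).le)]
    have h1 := hz_shift_bd k hT hA v t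
    have h2 : wt T U t ≤ Real.exp (-(((t - T) / U) ^ 2 / 2)) := by
      unfold wt
      apply Real.exp_le_exp.2
      nlinarith [sq_nonneg ((t - T) / U)]
    calc ‖hz k (t + v)‖ ^ 2 * wt T U t ≤ (180 ^ (2 * k) * (1 + |v|) ^ (4 * k) * (2 * T) ^ (4 * k) *
          (1 + |(t - T) / U|) ^ (4 * k)) * Real.exp (-(((t - T) / U) ^ 2 / 2)) := by
          apply mul_le_mul h1 h2 (wt_pos _ _ _).le (by have : 0 ≤ T := by linarith
                                                       positivity)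
      _ = _ := by ring

theorem I_bd (k : ℕ) {u : ℝ} (hu : 0 < u) : ∃ (C : ℝ) (m : ℕ), 0 ≤ C ∧ ∀ᶠ T : ℝ in atTop, ∀ U : ℝ,
    Adm T U → T ^ u ≤ U → ∀ x : ℝ,
      ∫ t, ‖hz k (t + x / Real.log T)‖ ^ 2 * wt T U t ≤ C * (1 + |x|) ^ m * JJ k T U (1 / 2) := by
  obtain ⟨c, hc, hJ⟩ := Pool.Agent.Q80.ZM.J_low k
  obtain ⟨n0, hn0⟩ := exists_nat_ge (4 * k / u)
  have hK := Q97.MM.KK_nonneg (4 * k)
  set A0 : ℝ := 180 ^ (2 * k) * 2 ^ (4 * k) * Q97.MM.KK (4 * k) with hA0
  have hA00 : 0 ≤ A0 := by positivity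
  refine ⟨Real.exp 1 + A0 * c + A0 * 4 ^ n0 * c, 4 * k + n0, by positivity, ?_⟩
  have hkl := (kap_lim (4 * k)).eventually (gt_mem_nhds (show (0:ℝ) < 1 by norm_num))
  filter_upwards [hJ, hkl, eventually_ge_atTop 4] with T h1 h2 hT U hA hUu x
  have hT0 : 0 < T := by linarith
  have hT1 : 1 ≤ T := by linarith
  have hU := hA.pos
  have hL1 := log_one hT
  set L := Real.log T with hL
  have hL0 : 0 < L := by linarith
  obtain ⟨-, hUJ⟩ := h1 U hA
  have hJ0 : 0 ≤ JJ k T U (1 / 2) := by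
    by_contra hcon
    push Not at hcon
    nlinarith
  set v : ℝ := x / L with hv
  have hvx : |v| ≤ |x| := by
    rw [hv, abs_div, abs_of_pos hL0]
    exact div_le_self (abs_nonneg _) hL1
  have hx1 : 1 ≤ 1 + |x| := by linarith [abs_nonneg x]
  have hxm : (1 + |x|) ^ (4 * k) ≤ (1 + |x|) ^ (4 * k + n0) := pow_le_pow_right₀ hx1 (by omega)
  have hx0 : 1 ≤ (1 + |x|) ^ (4 * k + n0) := one_le_pow₀ hx1
  have hTk : T ^ (4 * k) * Real.exp (-(L ^ 2 / 8)) ≤ 1 := by
    have : 0 < T⁻¹ := by positivity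
    linarith
  by_cases hvU : |v| ≤ U / (4 * L)
  · -- small shifts
    have hMJ : ∫ t, ‖hz k (t + v)‖ ^ 2 * wt T U (t + v) = JJ k T U (1 / 2) := by
      rw [integral_add_right_eq_self (fun t => ‖hz k t‖ ^ 2 * wt T U t) v, ← M0_eq]
      rfl
    have hi1 : Integrable (fun t => ‖hz k (t + v)‖ ^ 2 * wt T U (t + v)) :=
      (M0_int k hA).comp_add_right v
    have hi2 : Integrable (fun t => (180 ^ (2 * k) * (1 + |v|) ^ (4 * k) * (2 * T) ^ (4 * k) *
        Real.exp (-(L ^ 2 / 8))) * ((1 + |(t - T) / U|) ^ (4 * k) *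
          Real.exp (-(((t - T) / U) ^ 2 / 2)))) :=
      (scaled_integrable (4 * k) T hU).const_mul _
    have h3 := integral_mono (hz_shift_int k hT hA v) ((hi1.const_mul (Real.exp 1)).add hi2)
      fun t => ?_
    · have h4 : ∫ t, ((fun t => Real.exp 1 * (‖hz k (t + v)‖ ^ 2 * wt T U (t + v))) +
          fun t => (180 ^ (2 * k) * (1 + |v|) ^ (4 * k) * (2 * T) ^ (4 * k) *
        Real.exp (-(L ^ 2 / 8))) * ((1 + |(t - T) / U|) ^ (4 * k) *
          Real.exp (-(((t - T) / U) ^ 2 / 2)))) t =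
          Real.exp 1 * JJ k T U (1 / 2) + (180 ^ (2 * k) * (1 + |v|) ^ (4 * k) * (2 * T) ^ (4 * k) *
            Real.exp (-(L ^ 2 / 8))) * (U * Q97.MM.KK (4 * k)) := by
        rw [integral_add' (hi1.const_mul _) hi2, integral_const_mul, integral_const_mul, hMJ,
          scaled_integral (4 * k) T hU]
      rw [h4] at h3
      refine h3.trans ?_
      have h5 : (180 ^ (2 * k) * (1 + |v|) ^ (4 * k) * (2 * T) ^ (4 * k) *
            Real.exp (-(L ^ 2 / 8))) * (U * Q97.MM.KK (4 * k)) ≤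
          A0 * (1 + |x|) ^ (4 * k) * (c * JJ k T U (1 / 2)) := by
        have e1 : (180 ^ (2 * k) * (1 + |v|) ^ (4 * k) * (2 * T) ^ (4 * k) *
            Real.exp (-(L ^ 2 / 8))) * (U * Q97.MM.KK (4 * k)) =
            A0 * (1 + |v|) ^ (4 * k) * (T ^ (4 * k) * Real.exp (-(L ^ 2 / 8))) * U := by
          rw [hA0, mul_pow]; ring
        rw [e1]
        calc A0 * (1 + |v|) ^ (4 * k) * (T ^ (4 * k) * Real.exp (-(L ^ 2 / 8))) * U
            ≤ A0 * (1 + |x|) ^ (4 * k) * 1 * (c * JJ k T U (1 / 2)) := by gcongr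
          _ = _ := by ring
      have h6 : 0 ≤ A0 * 4 ^ n0 * c * (1 + |x|) ^ (4 * k + n0) * JJ k T U (1 / 2) := by positivity
      have h7 : Real.exp 1 * JJ k T U (1 / 2) ≤
          Real.exp 1 * (1 + |x|) ^ (4 * k + n0) * JJ k T U (1 / 2) := by
        apply mul_le_mul_of_nonneg_right _ hJ0
        nlinarith [Real.exp_pos 1]
      have h8 : A0 * (1 + |x|) ^ (4 * k) * (c * JJ k T U (1 / 2)) ≤
          A0 * c * (1 + |x|) ^ (4 * k + n0) * JJ k T U (1 / 2) := by
        calc A0 * (1 + |x|) ^ (4 * k) * (c * JJ k T U (1 / 2)) ≤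
              A0 * (1 + |x|) ^ (4 * k + n0) * (c * JJ k T U (1 / 2)) := by gcongr
          _ = _ := by ring
      linarith
    · have h4 := wt_split hT hA hvU t
      have h5 := hz_shift_bd k hT hA v t
      have h6 : 0 ≤ ‖hz k (t + v)‖ ^ 2 := by positivity
      calc ‖hz k (t + v)‖ ^ 2 * wt T U t ≤ ‖hz k (t + v)‖ ^ 2 * (Real.exp 1 * wt T U (t + v) +
            Real.exp (-(L ^ 2 / 8)) * Real.exp (-(((t - T) / U) ^ 2 / 2))) :=
            mul_le_mul_of_nonneg_left h4 h6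
        _ = Real.exp 1 * (‖hz k (t + v)‖ ^ 2 * wt T U (t + v)) + ‖hz k (t + v)‖ ^ 2 *
            (Real.exp (-(L ^ 2 / 8)) * Real.exp (-(((t - T) / U) ^ 2 / 2))) := by ring
        _ ≤ Real.exp 1 * (‖hz k (t + v)‖ ^ 2 * wt T U (t + v)) +
            (180 ^ (2 * k) * (1 + |v|) ^ (4 * k) * (2 * T) ^ (4 * k) *
              (1 + |(t - T) / U|) ^ (4 * k)) *
            (Real.exp (-(L ^ 2 / 8)) * Real.exp (-(((t - T) / U) ^ 2 / 2))) := by
            gcongr
        _ = _ := by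
            simp only [Pi.add_apply]
            ring
  · -- large shifts
    push Not at hvU
    have h3 : T ^ u ≤ 4 * |x| := by
      rw [hv, abs_div, abs_of_pos hL0, div_lt_div_iff₀ (by positivity) hL0] at hvU
      have : U < 4 * |x| := by
        have h4 : U * L < |x| * 4 * L := by linarith
        have := lt_of_mul_lt_mul_right h4 hL0.le
        linarith
      linarith
    have h4 : T ^ (4 * k) ≤ (4 * (1 + |x|)) ^ n0 := by
      have h5 : (T ^ u) ^ n0 ≤ (4 * (1 + |x|)) ^ n0 := by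
        have : 0 ≤ T ^ u := by positivity
        have : 4 * |x| ≤ 4 * (1 + |x|) := by linarith
        gcongr
        linarith
      refine le_trans ?_ h5
      rw [← Real.rpow_natCast (T ^ u), ← Real.rpow_mul hT0.le, ← Real.rpow_natCast T]
      apply Real.rpow_le_rpow_of_exponent_le hT1
      rw [div_le_iff₀ hu] at hn0
      push_cast
      linarith
    have h5 : ∫ t, ‖hz k (t + v)‖ ^ 2 * wt T U t ≤
        (180 ^ (2 * k) * (1 + |v|) ^ (4 * k) * (2 * T) ^ (4 * k)) * (U * Q97.MM.KK (4 * k)) := by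
      rw [← scaled_integral (4 * k) T hU, ← integral_const_mul]
      refine integral_mono (hz_shift_int k hT hA v) ((scaled_integrable (4 * k) T hU).const_mul _)
        fun t => ?_
      have h1 := hz_shift_bd k hT hA v t
      have h2 : wt T U t ≤ Real.exp (-(((t - T) / U) ^ 2 / 2)) := by
        unfold wt
        apply Real.exp_le_exp.2
        nlinarith [sq_nonneg ((t - T) / U)]
      calc ‖hz k (t + v)‖ ^ 2 * wt T U t ≤ (180 ^ (2 * k) * (1 + |v|) ^ (4 * k) * (2 * T) ^ (4 * k) *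
            (1 + |(t - T) / U|) ^ (4 * k)) * Real.exp (-(((t - T) / U) ^ 2 / 2)) := by
            apply mul_le_mul h1 h2 (wt_pos _ _ _).le (by positivity)
        _ = _ := by ring
    refine h5.trans ?_
    have e1 : (180 ^ (2 * k) * (1 + |v|) ^ (4 * k) * (2 * T) ^ (4 * k)) * (U * Q97.MM.KK (4 * k)) =
        A0 * (1 + |v|) ^ (4 * k) * T ^ (4 * k) * U := by
      rw [hA0, mul_pow]; ring
    rw [e1]
    calc A0 * (1 + |v|) ^ (4 * k) * T ^ (4 * k) * U ≤
          A0 * (1 + |x|) ^ (4 * k) * (4 * (1 + |x|)) ^ n0 * (c * JJ k T U (1 / 2)) := by gcongr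
      _ = A0 * 4 ^ n0 * c * (1 + |x|) ^ (4 * k + n0) * JJ k T U (1 / 2) := by
          rw [mul_pow, pow_add]; ring
      _ ≤ _ := by
          have i1 : 0 ≤ (Real.exp 1 + A0 * c) * (1 + |x|) ^ (4 * k + n0) * JJ k T U (1 / 2) := by
            positivity
          linarith

/-- growth of the shifted moment -/
theorem SS_growth (hk : 1 ≤ k) {u : ℝ} (hu : 0 < u) : ∃ (C : ℝ) (m : ℕ), 0 ≤ C ∧
    ∀ᶠ T : ℝ in atTop, ∀ U : ℝ, Adm T U → T ^ u ≤ U → ∀ z : Fin k ⊕ Fin k → ℝ,
      ‖Pool.Agent.Q80.TM.SS k T U (fun e => (z e : ℂ))‖ ≤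
        C * (∏ e, (1 + |z e|) ^ m) * JJ k T U (1 / 2) := by
  obtain ⟨C, m, hC, hI⟩ := I_bd k hu
  refine ⟨2 * k * C, m, by positivity, ?_⟩
  filter_upwards [hI, eventually_ge_atTop 4, Pool.Agent.Q80.TM.JJ_pos k] with T h1 hT hJp U hA hUu z
  have hJ0 := hJp U hA
  have hL1 := log_one hT
  have h2 : ∀ t : ℝ, ‖Pool.Agent.Q80.TM.ff k T t (fun e => (z e : ℂ))‖ * wt T U t ≤
      ∑ e, ‖hz k (t + z e / Real.log T)‖ ^ 2 * wt T U t := by
    intro t
    rw [ff_ze, norm_prod]
    have h3 : ∀ e : Fin k ⊕ Fin k, ‖ze (Real.log T) t e (z e)‖ = ‖hz 1 (t + z e / Real.log T)‖ := by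
      rintro (i | j)
      · rfl
      · show ‖(starRingEnd ℂ) (hz 1 (t + z (Sum.inr j) / Real.log T))‖ = _
        rw [RCLike.norm_conj]
    simp only [h3]
    refine Pool.Agent.Q80.TM.prod_bd hk (fun e => norm_nonneg _) (wt_pos _ _ _).le fun e => ?_
    have h4 : ‖hz 1 (t + z e / Real.log T)‖ ^ (2 * k) = ‖hz k (t + z e / Real.log T)‖ ^ 2 := by
      unfold hz
      rw [norm_pow, norm_pow, pow_one, ← pow_mul, mul_comm]
    rw [h4]
    exact Finset.single_le_sum (f := fun e => ‖hz k (t + z e / Real.log T)‖ ^ 2 * wt T U t)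
      (fun e _ => mul_nonneg (by positivity) (wt_pos _ _ _).le) (Finset.mem_univ e)
  have h5 : ‖Pool.Agent.Q80.TM.SS k T U (fun e => (z e : ℂ))‖ ≤
      ∫ t, ∑ e, ‖hz k (t + z e / Real.log T)‖ ^ 2 * wt T U t := by
    unfold Pool.Agent.Q80.TM.SS
    refine norm_integral_le_of_norm_le (integrable_finsetSum _ fun e _ =>
      hz_shift_int k hT hA _) (Eventually.of_forall fun t => ?_)
    rw [norm_mul, Complex.norm_real, Real.norm_of_nonneg (wt_pos _ _ _).le]
    exact h2 t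
  refine h5.trans ?_
  rw [integral_finsetSum _ fun e _ => hz_shift_int k hT hA _]
  have h6 : ∀ e ∈ (Finset.univ : Finset (Fin k ⊕ Fin k)),
      ∫ t, ‖hz k (t + z e / Real.log T)‖ ^ 2 * wt T U t ≤
        C * (∏ e, (1 + |z e|) ^ m) * JJ k T U (1 / 2) := by
    intro e _
    refine (h1 U hA hUu (z e)).trans ?_
    have h7 : (1 + |z e|) ^ m ≤ ∏ e, (1 + |z e|) ^ m := by
      rw [← Finset.mul_prod_erase Finset.univ (fun e => (1 + |z e|) ^ m) (Finset.mem_univ e)]
      refine le_mul_of_one_le_right (by positivity) ?_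
      exact Finset.prod_induction (fun e => (1 + |z e|) ^ m) (fun x => (1:ℝ) ≤ x)
        (fun a b ha hb => one_le_mul_of_one_le_of_one_le ha hb) le_rfl fun e _ =>
          one_le_pow₀ (by linarith [abs_nonneg (z e)])
    gcongr
  refine (Finset.sum_le_sum h6).trans (le_of_eq ?_)
  rw [Finset.sum_const, Finset.card_univ, Fintype.card_sum, Fintype.card_fin, nsmul_eq_mul]
  push_cast
  ring

end

end Q80.VS
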