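import Pool.Agent.Q80.VS.Gs

set_option autoImplicit false

/-! Products of smoothed Dirichlet polynomials as one Dirichlet polynomial. -/

namespace Q80.VS

open MeasureTheory Filter Topology Complex Set
open Q97.MM Q80.SP
open Pool.Agent.W182.KO (TF tau dk)

noncomputable section

variable {k : ℕ}

/-- coefficients of the product of `k` smoothed Dirichlet polynomials -/
def al (p : Fin k → ℝ → ℂ) (L : ℝ) (n : ℕ) : ℂ :=
  ∑ f ∈ Nat.finMulAntidiag k n, ∏ i, p i (Real.log (f i) / L)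

/-- normalised coefficients -/
def ah (p : Fin k → ℝ → ℂ) (L : ℝ) (n : ℕ) : ℂ := al p L n * (((n : ℝ) ^ (-(1 / 2 : ℝ)) : ℝ) : ℂ)

theorem al_zero (p : Fin k → ℝ → ℂ) (L : ℝ) : al p L 0 = 0 := by
  unfold al
  rw [Nat.finMulAntidiag_zero_right]
  simp

theorem ah_zero (p : Fin k → ℝ → ℂ) (L : ℝ) : ah p L 0 = 0 := by
  unfold ah
  rw [al_zero, zero_mul]

theorem dk_one {n : ℕ} (hn : n ≠ 0) : dk 1 n = 1 := by
  unfold dk
  rw [Finset.card_eq_one]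
  refine ⟨fun _ => n, ?_⟩
  ext f
  rw [Nat.mem_finMulAntidiag, Finset.mem_singleton]
  constructor
  · rintro ⟨h1, -⟩
    funext i
    rw [Fin.prod_univ_one] at h1
    rw [Subsingleton.elim i 0, h1]
  · rintro rfl
    exact ⟨by simp, hn⟩

theorem prod_cpow (f : Fin k → ℕ) (h : ℂ) : ∏ j, (f j : ℂ) ^ h = ((∏ j, f j : ℕ) : ℂ) ^ h := by
  have h3 : ∀ s : Finset (Fin k), ∏ j ∈ s, (f j : ℂ) ^ h = ((∏ j ∈ s, f j : ℕ) : ℂ) ^ h := by
    intro s
    classical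
    induction s using Finset.induction_on with
    | empty => simp
    | insert i s hi ih =>
      rw [Finset.prod_insert hi, Finset.prod_insert hi, ih, Nat.cast_mul,
        Complex.natCast_mul_natCast_cpow]
  exact h3 _

theorem cpow_half {n : ℕ} (hn : n ≠ 0) (t : ℝ) : (n : ℂ) ^ (-(1 / 2 + t * I) : ℂ) =
    (((n : ℝ) ^ (-(1 / 2 : ℝ)) : ℝ) : ℂ) * cexp (-((t * Real.log n : ℝ) : ℂ) * I) := by
  have hn' : (n : ℂ) ≠ 0 := by exact_mod_cast hn
  have e1 : (-(1 / 2 + t * I) : ℂ) = ((-(1 / 2) : ℝ) : ℂ) + (-(t * I)) := by push_cast; ring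
  rw [e1, Complex.cpow_add _ _ hn', Complex.ofReal_cpow (Nat.cast_nonneg n)]
  congr 1
  rw [Complex.cpow_def_of_ne_zero hn']
  congr 1
  rw [← Complex.natCast_log]
  push_cast
  ring

/-- the tuples in a box with given product -/
theorem box_eq {N n : ℕ} (hn : n ≠ 0) {F : (Fin k → ℕ) → ℂ}
    (h0 : ∀ f : Fin k → ℕ, (∃ i, N ≤ f i) → F f = 0) :
    ∑ f ∈ (Fintype.piFinset fun _ : Fin k => Finset.range N) with ∏ i, f i = n, F f =
      ∑ f ∈ Nat.finMulAntidiag k n, F f := by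
  refine Finset.sum_subset ?_ ?_
  · intro f hf
    rw [Finset.mem_filter] at hf
    rw [Nat.mem_finMulAntidiag]
    exact ⟨hf.2, hn⟩
  · intro f hf hf'
    rw [Nat.mem_finMulAntidiag] at hf
    rw [Finset.mem_filter, not_and] at hf'
    apply h0
    by_contra hcon
    push Not at hcon
    exact hf' (by rw [Fintype.mem_piFinset]; intro i; exact Finset.mem_range.2 (hcon i)) hf.1

theorem DP_fin {ξ1 : ℝ} {ψ : ℝ → ℂ} (h : TF ξ1 ψ) {L : ℝ} (hL : 0 < L) {N : ℕ}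
    (hN : Real.exp (ξ1 * L) < N) (t : ℝ) : DP 1 ψ L t =
      ∑ n ∈ Finset.range N, (dk 1 n : ℂ) * ψ (Real.log n / L) * (n : ℂ) ^ (-(1 / 2 + t * I)) := by
  unfold DP
  refine tsum_eq_sum fun n hn => ?_
  rw [Finset.mem_range, not_lt] at hn
  have hn1 : (N : ℝ) ≤ n := by exact_mod_cast hn
  have hlt : ξ1 < Real.log n / L := by
    rw [lt_div_iff₀ hL, Real.lt_log_iff_exp_lt (by linarith [Real.exp_pos (ξ1 * L)])]
    linarith
  rw [h.sp _ hlt, mul_zero, zero_mul]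

theorem big_zero {ξ1 : ℝ} {ψ : ℝ → ℂ} (h : TF ξ1 ψ) {L : ℝ} (hL : 0 < L) {N n : ℕ}
    (hN : Real.exp (ξ1 * L) < N) (hn : N ≤ n) : ψ (Real.log n / L) = 0 := by
  have hn1 : (N : ℝ) ≤ n := by exact_mod_cast hn
  apply h.sp
  rw [lt_div_iff₀ hL, Real.lt_log_iff_exp_lt (by linarith [Real.exp_pos (ξ1 * L)])]
  linarith

theorem prod_DP {ξ : Fin k → ℝ} {p : Fin k → ℝ → ℂ} (h : ∀ i, TF (ξ i) (p i)) {L : ℝ}
    (hL : 0 < L) {N M : ℕ} (hN : ∀ i, Real.exp (ξ i * L) < N) (hM : N ^ k < M) (t : ℝ) :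
    ∏ i, DP 1 (p i) L t = pol M (ah p L) t := by
  have e1 : ∏ i, DP 1 (p i) L t = ∏ i, ∑ n ∈ Finset.range N, (dk 1 n : ℂ) *
      p i (Real.log n / L) * (n : ℂ) ^ (-(1 / 2 + t * I)) :=
    Finset.prod_congr rfl fun i _ => DP_fin (h i) hL (hN i) t
  rw [e1, Finset.prod_univ_sum]
  have hmaps : ∀ f ∈ (Fintype.piFinset fun _ : Fin k => Finset.range N),
      (∏ i, f i) ∈ Finset.range M := by
    intro f hf
    rw [Fintype.mem_piFinset] at hf
    rw [Finset.mem_range]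
    refine lt_of_le_of_lt ?_ hM
    calc ∏ i, f i ≤ ∏ _i : Fin k, N :=
          Finset.prod_le_prod' fun i _ => (Finset.mem_range.1 (hf i)).le
      _ = N ^ k := by rw [Finset.prod_const, Finset.card_univ, Fintype.card_fin]
  rw [← Finset.sum_fiberwise_of_maps_to hmaps]
  unfold pol
  refine Finset.sum_congr rfl fun n _ => ?_
  rcases Nat.eq_zero_or_pos n with hn | hn
  · subst hn
    rw [ah_zero, zero_mul]
    refine Finset.sum_eq_zero fun f hf => ?_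
    rw [Finset.mem_filter] at hf
    obtain ⟨i, hi, hi0⟩ := Finset.prod_eq_zero_iff.1 hf.2
    refine Finset.prod_eq_zero hi ?_
    rw [hi0, dk_zero]
    simp
  · rw [box_eq hn.ne']
    · unfold ah al
      rw [Finset.sum_mul, Finset.sum_mul]
      refine Finset.sum_congr rfl fun f hf => ?_
      have hf0 : ∀ i, f i ≠ 0 := fun i => Nat.ne_zero_of_mem_finMulAntidiag hf i
      rw [Finset.prod_mul_distrib, Finset.prod_mul_distrib, prod_cpow,
        Nat.prod_eq_of_mem_finMulAntidiag hf, cpow_half hn.ne']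
      have e3 : ∏ i, ((dk 1 (f i) : ℕ) : ℂ) = 1 :=
        Finset.prod_eq_one fun i _ => by rw [dk_one (hf0 i)]; simp
      rw [e3]
      ring
    · rintro f ⟨i, hi⟩
      refine Finset.prod_eq_zero (Finset.mem_univ i) ?_
      rw [big_zero (h i) hL (hN i) hi]
      simp

theorem al_supp {ξ : Fin k → ℝ} {p : Fin k → ℝ → ℂ} (h : ∀ i, TF (ξ i) (p i)) {L : ℝ}
    (hL : 0 < L) {m : ℕ} (hm : al p L m ≠ 0) : (m : ℝ) ≤ Real.exp (L * ∑ i, ξ i) := by
  unfold al at hm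
  obtain ⟨f, hf, hf0⟩ := Finset.exists_ne_zero_of_sum_ne_zero hm
  have h1 : ∀ i, (f i : ℝ) ≤ Real.exp (L * ξ i) := by
    intro i
    have h2 := Finset.prod_ne_zero_iff.1 hf0 i (Finset.mem_univ i)
    by_contra hcon
    push Not at hcon
    apply h2
    apply (h i).sp
    rw [lt_div_iff₀ hL, Real.lt_log_iff_exp_lt (by linarith [Real.exp_pos (L * ξ i)])]
    rwa [mul_comm]
  have h3 := Nat.prod_eq_of_mem_finMulAntidiag hf
  rw [← h3, Finset.mul_sum, Real.exp_sum]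
  push_cast
  exact Finset.prod_le_prod (fun i _ => Nat.cast_nonneg _) fun i _ => h1 i

theorem ah_supp {ξ : Fin k → ℝ} {p : Fin k → ℝ → ℂ} (h : ∀ i, TF (ξ i) (p i)) {L : ℝ}
    (hL : 0 < L) {m : ℕ} (hm : ah p L m ≠ 0) : (m : ℝ) ≤ Real.exp (L * ∑ i, ξ i) :=
  al_supp h hL (left_ne_zero_of_mul hm)

theorem TF.bd {ξ1 : ℝ} {ψ : ℝ → ℂ} (h : TF ξ1 ψ) : ∃ C : ℝ, 1 ≤ C ∧ ∀ x, ‖ψ x‖ ≤ C := by
  obtain ⟨C, hC⟩ := h.cs.exists_bound_of_continuous h.cont
  exact ⟨max C 1, le_max_right _ _, fun x => (hC x).trans (le_max_left _ _)⟩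

theorem ah_bd {ξ : Fin k → ℝ} {p : Fin k → ℝ → ℂ} (h : ∀ i, TF (ξ i) (p i)) :
    ∃ C : ℝ, 0 ≤ C ∧ ∀ (L : ℝ) (n : ℕ), ‖ah p L n‖ ≤ C := by
  choose c hc1 hc using fun i => TF.bd (h i)
  obtain ⟨D, hD0, hD⟩ := dk_bd k
  have hcp : 0 ≤ ∏ i, c i := Finset.prod_nonneg fun i _ => by linarith [hc1 i]
  refine ⟨(∏ i, c i) * D, by positivity, fun L n => ?_⟩
  rcases Nat.eq_zero_or_pos n with hn | hn
  · subst hn
    rw [ah_zero, norm_zero]
    positivity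
  have hn1 : (1 : ℝ) ≤ n := by exact_mod_cast hn
  have hn0 : (0 : ℝ) < n := by linarith
  unfold ah al
  rw [norm_mul, Complex.norm_real, Real.norm_of_nonneg (by positivity)]
  have h1 : ‖∑ f ∈ Nat.finMulAntidiag k n, ∏ i, p i (Real.log (f i) / L)‖ ≤ (∏ i, c i) * dk k n := by
    calc ‖∑ f ∈ Nat.finMulAntidiag k n, ∏ i, p i (Real.log (f i) / L)‖
        ≤ ∑ f ∈ Nat.finMulAntidiag k n, ‖∏ i, p i (Real.log (f i) / L)‖ := norm_sum_le _ _
      _ ≤ ∑ _f ∈ Nat.finMulAntidiag k n, ∏ i, c i := Finset.sum_le_sum fun f _ => by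
          rw [norm_prod]
          exact Finset.prod_le_prod (fun i _ => norm_nonneg _) fun i _ => hc i _
      _ = (∏ i, c i) * dk k n := by
          rw [Finset.sum_const, nsmul_eq_mul, mul_comm]
          rfl
  have h2 : ((n : ℝ) ^ (1 / 4 : ℝ)) * (n : ℝ) ^ (-(1 / 2 : ℝ)) ≤ 1 := by
    rw [← Real.rpow_add hn0]
    exact Real.rpow_le_one_of_one_le_of_nonpos hn1 (by norm_num)
  calc ‖∑ f ∈ Nat.finMulAntidiag k n, ∏ i, p i (Real.log (f i) / L)‖ * (n : ℝ) ^ (-(1 / 2 : ℝ))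
      ≤ ((∏ i, c i) * (D * (n : ℝ) ^ (1 / 4 : ℝ))) * (n : ℝ) ^ (-(1 / 2 : ℝ)) := by
        gcongr
        refine h1.trans ?_
        gcongr
        exact hD n
    _ = (∏ i, c i) * D * (((n : ℝ) ^ (1 / 4 : ℝ)) * (n : ℝ) ^ (-(1 / 2 : ℝ))) := by ring
    _ ≤ (∏ i, c i) * D * 1 := by gcongr
    _ = _ := mul_one _

end

end Q80.VS
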