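import Pool.Agent.Q80.VS.Sm
import Pool.Agent.Q80.TM.Zet

set_option autoImplicit false

/-! Test functions against the shifted moment. -/

namespace Q80.VS

open MeasureTheory Filter Topology Complex Set
open Q97.MM (Adm wt wt_pos pt abs_le_scaled scaled_integrable scaled_integral)
open Q80.SP
open Pool.Agent.W182.KO (TF tau dk P P_bound P_diff P_inv J2 J2_nonneg one_add_inv_sq_int)
open Pool.Agent.Q80.TM (ff zp zm)

noncomputable section

variable {k : ℕ} {ξ1 : ℝ} {ψ : ℝ → ℂ}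

/-- the test functions -/
def fe (p q : Fin k → ℝ → ℂ) : Fin k ⊕ Fin k → ℝ → ℂ :=
  Sum.elim (fun i x => P (p i) (x * I) / (2 * Real.pi))
    (fun j x => (starRingEnd ℂ) (P (q j) (x * I) / (2 * Real.pi)))

/-- the zeta factors -/
def ze (L t : ℝ) : Fin k ⊕ Fin k → ℝ → ℂ :=
  Sum.elim (fun _ x => hz 1 (t + x / L)) (fun _ x => (starRingEnd ℂ) (hz 1 (t + x / L)))

theorem P_im_bd (h : TF ξ1 ψ) : ∃ C : ℝ, 0 ≤ C ∧ ∀ x : ℝ,
    ‖P ψ (x * I) / (2 * Real.pi)‖ ≤ C * ((1 + |x|) ^ 4)⁻¹ := by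
  obtain ⟨C, hC, hb⟩ := P_bound h 4
  refine ⟨C, hC, fun x => ?_⟩
  have h1 := hb (x * I) (by simp)
  have e1 : ((x : ℂ) * I).re = 0 := by simp
  have e2 : ‖(x : ℂ) * I‖ = |x| := by
    rw [norm_mul, Complex.norm_I, mul_one, Complex.norm_real, Real.norm_eq_abs]
  rw [e1, e2, mul_zero, Real.exp_zero, mul_one] at h1
  have h2 : ‖P ψ (x * I)‖ ≤ C * ((1 + |x|) ^ 4)⁻¹ := by
    rw [← div_eq_mul_inv, le_div_iff₀ (by positivity)]
    exact h1
  rw [norm_div]
  have h3 : ‖(2 * Real.pi : ℂ)‖ = 2 * Real.pi := by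
    have : (2 * Real.pi : ℂ) = ((2 * Real.pi : ℝ) : ℂ) := by push_cast; rfl
    rw [this, Complex.norm_real, Real.norm_of_nonneg (by positivity)]
  rw [h3]
  have hpi : (1 : ℝ) ≤ 2 * Real.pi := by linarith [Real.pi_gt_three]
  exact (div_le_self (norm_nonneg _) hpi).trans h2

theorem P_im_cont (h : TF ξ1 ψ) : Continuous (fun x : ℝ => P ψ (x * I) / (2 * Real.pi)) := by
  have hP : Continuous (P ψ) := (P_diff h).continuous
  exact (hP.comp (by fun_prop)).div_const _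

theorem fe_cont {ξ η : Fin k → ℝ} {p q : Fin k → ℝ → ℂ} (hp : ∀ i, TF (ξ i) (p i))
    (hq : ∀ i, TF (η i) (q i)) (e : Fin k ⊕ Fin k) : Continuous (fe p q e) := by
  rcases e with i | j
  · exact P_im_cont (hp i)
  · exact Complex.continuous_conj.comp (P_im_cont (hq j))

theorem fe_bd {ξ η : Fin k → ℝ} {p q : Fin k → ℝ → ℂ} (hp : ∀ i, TF (ξ i) (p i))
    (hq : ∀ i, TF (η i) (q i)) (e : Fin k ⊕ Fin k) : ∃ C : ℝ, 0 ≤ C ∧ ∀ x : ℝ,
      ‖fe p q e x‖ ≤ C * ((1 + |x|) ^ 4)⁻¹ := by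
  rcases e with i | j
  · exact P_im_bd (hp i)
  · obtain ⟨C, hC, hb⟩ := P_im_bd (hq j)
    refine ⟨C, hC, fun x => ?_⟩
    show ‖(starRingEnd ℂ) (P (q j) (x * I) / (2 * Real.pi))‖ ≤ _
    rw [RCLike.norm_conj]
    exact hb x

theorem fe_int {ξ η : Fin k → ℝ} {p q : Fin k → ℝ → ℂ} (hp : ∀ i, TF (ξ i) (p i))
    (hq : ∀ i, TF (η i) (q i)) (e : Fin k ⊕ Fin k) :
    Integrable (fun x : ℝ => ‖fe p q e x‖ * (180 * (1 + |x|) ^ 2)) := by
  obtain ⟨C, hC, hb⟩ := fe_bd hp hq e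
  refine (one_add_inv_sq_int.const_mul (C * 180)).mono' ?_ (Eventually.of_forall fun x => ?_)
  · have := fe_cont hp hq e
    exact (by fun_prop : Continuous (fun x : ℝ => ‖fe p q e x‖ * (180 * (1 + |x|) ^ 2))).aestronglyMeasurable
  · rw [Real.norm_of_nonneg (by positivity)]
    have h1 : 0 < 1 + |x| := by positivity
    calc ‖fe p q e x‖ * (180 * (1 + |x|) ^ 2) ≤ (C * ((1 + |x|) ^ 4)⁻¹) * (180 * (1 + |x|) ^ 2) := by
          gcongr
          exact hb x
      _ = _ := by field_simp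

theorem sm_fe {L : ℝ} (hL : 0 < L) (f : ℝ → ℂ) (t : ℝ) :
    ∫ x : ℝ, P ψ (x * I) / (2 * Real.pi) * f (t + x / L) = sm ψ L f t := by
  have h1 := Measure.integral_comp_mul_left
    (fun x : ℝ => P ψ (x * I) / (2 * Real.pi) * f (t + x / L)) L
  rw [abs_of_pos (inv_pos.2 hL)] at h1
  have h2 : (∫ x : ℝ, P ψ (x * I) / (2 * Real.pi) * f (t + x / L)) =
      (L : ℂ) * ∫ y : ℝ, P ψ (((L * y : ℝ) : ℂ) * I) / (2 * Real.pi) * f (t + L * y / L) := by
    rw [h1, Complex.real_smul, ← mul_assoc, ← Complex.ofReal_mul, mul_inv_cancel₀ hL.ne',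
      Complex.ofReal_one, one_mul]
  rw [h2, ← integral_const_mul]
  unfold sm kr
  refine integral_congr_ae (Eventually.of_forall fun y => ?_)
  simp only
  have e1 : L * y / L = y := by field_simp
  rw [e1]
  push_cast
  ring

theorem sme_eq {L : ℝ} (hL : 0 < L) (p q : Fin k → ℝ → ℂ) (t : ℝ) (e : Fin k ⊕ Fin k) :
    ∫ x : ℝ, fe p q e x * ze L t e x = sme p q L t e := by
  rcases e with i | j
  · exact sm_fe hL (hz 1) t
  · show ∫ x : ℝ, (starRingEnd ℂ) (P (q j) (x * I) / (2 * Real.pi)) *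
      (starRingEnd ℂ) (hz 1 (t + x / L)) = (starRingEnd ℂ) (sm (q j) L (hz 1) t)
    rw [← sm_fe hL (hz 1) t, ← integral_conj]
    simp only [map_mul]

theorem ze_bd {L : ℝ} (hL : 1 ≤ L) (t x : ℝ) (e : Fin k ⊕ Fin k) :
    ‖ze L t e x‖ ≤ 180 * (1 + |x|) ^ 2 * (1 + |t|) ^ 2 := by
  have h0 : ‖ze L t e x‖ = ‖hz 1 (t + x / L)‖ := by
    rcases e with i | j
    · rfl
    · show ‖(starRingEnd ℂ) (hz 1 (t + x / L))‖ = _
      rw [RCLike.norm_conj]
  rw [h0]
  refine (hz_bd 1 (t + x / L)).trans ?_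
  have h1 : 1 + |t + x / L| ≤ (1 + |x|) * (1 + |t|) := by
    have h2 := abs_add_le t (x / L)
    have h3 : |x / L| ≤ |x| := by
      rw [abs_div, abs_of_pos (by linarith : 0 < L)]
      exact div_le_self (abs_nonneg _) hL
    nlinarith [abs_nonneg x, abs_nonneg t]
  have h4 : (1 + |t + x / L|) ^ 2 ≤ ((1 + |x|) * (1 + |t|)) ^ 2 := by gcongr
  rw [mul_pow] at h4
  norm_num
  linarith

theorem ze_cont (L : ℝ) (e : Fin k ⊕ Fin k) : Continuous (fun x : ℝ × ℝ => ze L x.1 e x.2) := by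
  have h := hz_cont 1
  rcases e with i | j
  · exact h.comp (by fun_prop)
  · exact Complex.continuous_conj.comp (h.comp (by fun_prop))

theorem ff_ze {T : ℝ} (t : ℝ) (z : Fin k ⊕ Fin k → ℝ) :
    ff k T t (fun e => (z e : ℂ)) = ∏ e, ze (Real.log T) t e (z e) := by
  unfold ff
  rw [Fintype.prod_sum_type]
  congr 1
  · refine Finset.prod_congr rfl fun i _ => ?_
    show riemannZeta _ = riemannZeta (pt (t + z (Sum.inl i) / Real.log T)) ^ 1
    rw [pow_one]
    congr 1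
    unfold pt
    push_cast
    ring
  · refine Finset.prod_congr rfl fun i _ => ?_
    rw [Pool.Agent.Q80.TM.zm_conj]
    show (starRingEnd ℂ) (riemannZeta _) =
      (starRingEnd ℂ) (riemannZeta (pt (t + z (Sum.inr i) / Real.log T)) ^ 1)
    rw [pow_one, Complex.conj_ofReal]
    congr 2
    unfold pt
    push_cast
    ring

/-- Fubini -/
theorem fub {ξ η : Fin k → ℝ} {p q : Fin k → ℝ → ℂ} (hp : ∀ i, TF (ξ i) (p i))
    (hq : ∀ i, TF (η i) (q i)) {T U : ℝ} (hT : 4 ≤ T) (hA : Adm T U) :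
    ∫ z : Fin k ⊕ Fin k → ℝ, (∏ e, fe p q e (z e)) * Pool.Agent.Q80.TM.SS k T U (fun e => (z e : ℂ)) =
      ∫ t : ℝ, (∏ e, sme p q (Real.log T) t e) * (wt T U t : ℂ) := by
  have hL1 := log_one hT
  have hL0 : 0 < Real.log T := by linarith
  have h1 : ∀ z : Fin k ⊕ Fin k → ℝ, (∏ e, fe p q e (z e)) * Pool.Agent.Q80.TM.SS k T U (fun e => (z e : ℂ)) =
      ∫ t : ℝ, (∏ e, fe p q e (z e) * ze (Real.log T) t e (z e)) * (wt T U t : ℂ) := by
    intro z
    unfold Pool.Agent.Q80.TM.SS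
    rw [← integral_const_mul]
    refine integral_congr_ae (Eventually.of_forall fun t => ?_)
    simp only
    rw [ff_ze, Finset.prod_mul_distrib]
    ring
  simp only [h1]
  rw [integral_integral_swap]
  · refine integral_congr_ae (Eventually.of_forall fun t => ?_)
    simp only
    rw [integral_mul_const,
      integral_fintype_prod_volume_eq_prod (fun e x => fe p q e x * ze (Real.log T) t e x)]
    congr 1
    exact Finset.prod_congr rfl fun e _ => sme_eq hL0 p q t e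
  · have h2 : Integrable (fun x : (Fin k ⊕ Fin k → ℝ) × ℝ =>
        (∏ e, ‖fe p q e (x.1 e)‖ * (180 * (1 + |x.1 e|) ^ 2)) *
          ((1 + |x.2|) ^ (4 * k) * wt T U x.2)) :=
      (Integrable.fintype_prod fun e => fe_int hp hq e).mul_prod (poly_wt_bound (4 * k) hA).1
    refine h2.mono' ?_ (Eventually.of_forall fun x => ?_)
    · have hc : Continuous (fun x : (Fin k ⊕ Fin k → ℝ) × ℝ =>
          (∏ e, fe p q e (x.1 e) * ze (Real.log T) x.2 e (x.1 e)) * (wt T U x.2 : ℂ)) := by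
        refine Continuous.mul (continuous_finsetProd _ fun e _ => ?_) ?_
        · have h3 : Continuous (fun x : (Fin k ⊕ Fin k → ℝ) × ℝ => x.1 e) :=
            (continuous_apply e).comp continuous_fst
          exact ((fe_cont hp hq e).comp h3).mul
            ((ze_cont (Real.log T) e).comp (continuous_snd.prodMk h3))
        · exact Complex.continuous_ofReal.comp ((wt_cont T U).comp continuous_snd)
      exact hc.aestronglyMeasurable
    · show ‖(∏ e, fe p q e (x.1 e) * ze (Real.log T) x.2 e (x.1 e)) * (wt T U x.2 : ℂ)‖ ≤ _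
      rw [norm_mul, Complex.norm_real, Real.norm_of_nonneg (wt_pos _ _ _).le, norm_prod, ← mul_assoc]
      refine mul_le_mul_of_nonneg_right ?_ (wt_pos _ _ _).le
      have h4 : (1 + |x.2|) ^ (4 * k) = ∏ _e : Fin k ⊕ Fin k, (1 + |x.2|) ^ 2 := by
        rw [Finset.prod_const, Finset.card_univ, Fintype.card_sum, Fintype.card_fin, ← pow_mul]
        congr 1
        ring
      rw [h4, ← Finset.prod_mul_distrib]
      refine Finset.prod_le_prod (fun _ _ => norm_nonneg _) fun e _ => ?_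
      rw [norm_mul, mul_assoc]
      exact mul_le_mul_of_nonneg_left (ze_bd hL1 _ _ _) (norm_nonneg _)

end

end Q80.VS
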