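import Pool.Agent.Q80.SP.Fin

set_option autoImplicit false

/-! Gaussian means of products of Dirichlet polynomials. -/

namespace Q80.VS

open MeasureTheory Filter Topology Complex Set
open Q97.MM

noncomputable section

/-- Fourier transform of the Gaussian weight -/
theorem wt_fourier {U : ℝ} (hU : 0 < U) (T r : ℝ) :
    ∫ t : ℝ, cexp (-((t * r : ℝ) : ℂ) * I) * (wt T U t : ℂ) =
      ((U * √Real.pi : ℝ) : ℂ) * cexp (-((T * r : ℝ) : ℂ) * I) *
        ((Real.exp (-(U ^ 2 * r ^ 2 / 4)) : ℝ) : ℂ) := by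
  have hUc : (U : ℂ) ≠ 0 := Complex.ofReal_ne_zero.2 hU.ne'
  have hb : (((-(1 / U ^ 2) : ℝ) : ℂ)).re < 0 := by
    rw [Complex.ofReal_re]
    have : 0 < 1 / U ^ 2 := by positivity
    linarith
  have h := integral_cexp_quadratic hb (((2 * T / U ^ 2 : ℝ) : ℂ) - r * I)
    (((-(T ^ 2 / U ^ 2) : ℝ) : ℂ))
  have e1 : ∀ t : ℝ, cexp (-((t * r : ℝ) : ℂ) * I) * (wt T U t : ℂ) =
      cexp (((-(1 / U ^ 2) : ℝ) : ℂ) * (t : ℂ) ^ 2 + (((2 * T / U ^ 2 : ℝ) : ℂ) - r * I) * t +
        (((-(T ^ 2 / U ^ 2) : ℝ) : ℂ))) := by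
    intro t
    unfold wt
    rw [Complex.ofReal_exp, ← Complex.exp_add]
    congr 1
    push_cast
    field_simp
    ring
  simp only [e1]
  rw [h]
  have e2 : ((Real.pi : ℂ) / -((-(1 / U ^ 2) : ℝ) : ℂ)) ^ (1 / 2 : ℂ) = ((U * √Real.pi : ℝ) : ℂ) := by
    have e3 : ((Real.pi : ℂ) / -((-(1 / U ^ 2) : ℝ) : ℂ)) = ((Real.pi * U ^ 2 : ℝ) : ℂ) := by
      push_cast
      field_simp
    rw [e3]
    have e4 : (1 / 2 : ℂ) = ((1 / 2 : ℝ) : ℂ) := by push_cast; rfl
    rw [e4, ← Complex.ofReal_cpow (by positivity)]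
    congr 1
    rw [← Real.sqrt_eq_rpow, Real.sqrt_mul Real.pi_pos.le, Real.sqrt_sq hU.le]
    ring
  rw [e2, mul_assoc, Complex.ofReal_exp, ← Complex.exp_add]
  congr 2
  push_cast
  field_simp
  ring_nf
  simp only [Complex.I_sq]
  ring

theorem wt_fourier_norm {U : ℝ} (hU : 0 < U) (T r : ℝ) :
    ‖∫ t : ℝ, cexp (-((t * r : ℝ) : ℂ) * I) * (wt T U t : ℂ)‖ =
      U * √Real.pi * Real.exp (-(U ^ 2 * r ^ 2 / 4)) := by
  rw [wt_fourier hU, norm_mul, norm_mul, Complex.norm_real, Complex.norm_real]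
  have h1 : ‖cexp (-((T * r : ℝ) : ℂ) * I)‖ = 1 := by
    have e : -((T * r : ℝ) : ℂ) * I = ((-(T * r) : ℝ) : ℂ) * I := by push_cast; ring
    rw [e, Complex.norm_exp_ofReal_mul_I]
  rw [h1, mul_one, Real.norm_of_nonneg (by positivity), Real.norm_of_nonneg (Real.exp_pos _).le]

theorem wt_int {U : ℝ} (hU : 0 < U) (T : ℝ) : Integrable (fun t => wt T U t) := by
  have h := (integrable_exp_neg_mul_sq (show (0:ℝ) < 1 / U ^ 2 by positivity)).comp_sub_right T
  refine h.congr (Eventually.of_forall fun t => ?_)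
  unfold wt
  simp only
  congr 1
  field_simp

theorem wt_cont (T U : ℝ) : Continuous (wt T U) := by unfold wt; fun_prop

/-- separation of logarithms -/
theorem log_sep {m n : ℕ} {X : ℝ} (hm : 1 ≤ m) (hn : 1 ≤ n) (hmn : m ≠ n) (hX : (m : ℝ) ≤ X) :
    1 / (2 * X) ≤ |Real.log m - Real.log n| := by
  have hm0 : (0 : ℝ) < m := by exact_mod_cast hm
  have hn0 : (0 : ℝ) < n := by exact_mod_cast hn
  have hm1 : (1 : ℝ) ≤ m := by exact_mod_cast hm
  have hX1 : (1 : ℝ) ≤ X := le_trans hm1 hX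
  rcases lt_or_gt_of_ne hmn with h | h
  · have h1 : (m : ℝ) + 1 ≤ n := by exact_mod_cast h
    have h2 : 1 - (m : ℝ) / n ≤ Real.log n - Real.log m := by
      have h3 := Real.one_sub_inv_le_log_of_pos (show (0:ℝ) < n / m by positivity)
      rw [Real.log_div hn0.ne' hm0.ne', inv_div] at h3
      exact h3
    have h4 : 1 / (2 * X) ≤ 1 - (m : ℝ) / n := by
      have h5 : (m : ℝ) / n ≤ m / (m + 1) := by gcongr
      have h6 : 1 - (m : ℝ) / (m + 1) = 1 / (m + 1) := by field_simp; ring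
      have h7 : 1 / (2 * X) ≤ 1 / ((m : ℝ) + 1) := by gcongr; linarith
      linarith
    rw [abs_sub_comm]
    exact (h4.trans h2).trans (le_abs_self _)
  · have h1 : (n : ℝ) + 1 ≤ m := by exact_mod_cast h
    have h2 : 1 - (n : ℝ) / m ≤ Real.log m - Real.log n := by
      have h3 := Real.one_sub_inv_le_log_of_pos (show (0:ℝ) < m / n by positivity)
      rw [Real.log_div hm0.ne' hn0.ne', inv_div] at h3
      exact h3
    have h4 : 1 / (2 * X) ≤ 1 - (n : ℝ) / m := by
      have h5 : 1 - (n : ℝ) / m = (m - n) / m := by field_simp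
      rw [h5, div_le_div_iff₀ (by positivity) hm0]
      nlinarith
    exact (h4.trans h2).trans (le_abs_self _)

/-- a Dirichlet polynomial with real frequencies -/
def pol (M : ℕ) (a : ℕ → ℂ) (t : ℝ) : ℂ :=
  ∑ n ∈ Finset.range M, a n * cexp (-((t * Real.log n : ℝ) : ℂ) * I)

theorem pol_cont (M : ℕ) (a : ℕ → ℂ) : Continuous (pol M a) := by
  unfold pol
  fun_prop

theorem pol_mul_conj (M : ℕ) (a b : ℕ → ℂ) (t : ℝ) :
    pol M a t * (starRingEnd ℂ) (pol M b t) =
      ∑ m ∈ Finset.range M, ∑ n ∈ Finset.range M, a m * (starRingEnd ℂ) (b n) *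
        cexp (-((t * (Real.log m - Real.log n) : ℝ) : ℂ) * I) := by
  unfold pol
  rw [map_sum, Finset.sum_mul_sum]
  refine Finset.sum_congr rfl fun m _ => Finset.sum_congr rfl fun n _ => ?_
  rw [map_mul, ← Complex.exp_conj]
  have e : (starRingEnd ℂ) (-((t * Real.log n : ℝ) : ℂ) * I) = ((t * Real.log n : ℝ) : ℂ) * I := by
    rw [map_mul, map_neg, Complex.conj_ofReal, Complex.conj_I]
    ring
  rw [e]
  have e2 : cexp (-((t * (Real.log m - Real.log n) : ℝ) : ℂ) * I) =
      cexp (-((t * Real.log m : ℝ) : ℂ) * I) * cexp (((t * Real.log n : ℝ) : ℂ) * I) := by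
    rw [← Complex.exp_add]
    congr 1
    push_cast
    ring
  rw [e2]
  ring

/-- mean value theorem with Gaussian weight -/
theorem mean {U X : ℝ} (hU : 0 < U) (T : ℝ) (M : ℕ) {a b : ℕ → ℂ} (ha0 : a 0 = 0) (hb0 : b 0 = 0)
    (ha : ∀ m : ℕ, a m ≠ 0 → (m : ℝ) ≤ X) (hX : 0 < X) :
    ‖(∫ t : ℝ, pol M a t * (starRingEnd ℂ) (pol M b t) * (wt T U t : ℂ)) -
      ((U * √Real.pi : ℝ) : ℂ) * ∑ n ∈ Finset.range M, a n * (starRingEnd ℂ) (b n)‖ ≤
      (U * √Real.pi * Real.exp (-(U ^ 2 / (16 * X ^ 2)))) *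
        ((∑ m ∈ Finset.range M, ‖a m‖) * ∑ n ∈ Finset.range M, ‖b n‖) := by
  have hexp : ∀ r : ℝ, Integrable (fun t : ℝ => cexp (-((t * r : ℝ) : ℂ) * I) * (wt T U t : ℂ)) := by
    intro r
    refine (wt_int hU T).mono' ?_ (Eventually.of_forall fun t => ?_)
    · have := wt_cont T U
      exact (by fun_prop : Continuous (fun t : ℝ => cexp (-((t * r : ℝ) : ℂ) * I) *
        (wt T U t : ℂ))).aestronglyMeasurable
    · rw [norm_mul, Complex.norm_real, Real.norm_of_nonneg (wt_pos _ _ _).le]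
      have e : -((t * r : ℝ) : ℂ) * I = ((-(t * r) : ℝ) : ℂ) * I := by push_cast; ring
      rw [e, Complex.norm_exp_ofReal_mul_I, one_mul]
  have h1 : (∫ t : ℝ, pol M a t * (starRingEnd ℂ) (pol M b t) * (wt T U t : ℂ)) =
      ∑ m ∈ Finset.range M, ∑ n ∈ Finset.range M, a m * (starRingEnd ℂ) (b n) *
        ∫ t : ℝ, cexp (-((t * (Real.log m - Real.log n) : ℝ) : ℂ) * I) * (wt T U t : ℂ) := by
    simp only [pol_mul_conj, Finset.sum_mul]
    rw [integral_finsetSum]
    · refine Finset.sum_congr rfl fun m _ => ?_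
      rw [integral_finsetSum]
      · refine Finset.sum_congr rfl fun n _ => ?_
        rw [← integral_const_mul]
        refine integral_congr_ae (Eventually.of_forall fun t => ?_)
        simp only
        ring
      · intro n _
        refine ((hexp (Real.log m - Real.log n)).const_mul (a m * (starRingEnd ℂ) (b n))).congr
          (Eventually.of_forall fun t => ?_)
        simp only
        ring
    · intro m _
      refine integrable_finsetSum _ fun n _ => ?_
      refine ((hexp (Real.log m - Real.log n)).const_mul (a m * (starRingEnd ℂ) (b n))).congr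
        (Eventually.of_forall fun t => ?_)
      simp only
      ring
  have h2 : ((U * √Real.pi : ℝ) : ℂ) * ∑ n ∈ Finset.range M, a n * (starRingEnd ℂ) (b n) =
      ∑ m ∈ Finset.range M, ∑ n ∈ Finset.range M,
        if m = n then ((U * √Real.pi : ℝ) : ℂ) * (a m * (starRingEnd ℂ) (b n)) else 0 := by
    rw [Finset.mul_sum]
    refine Finset.sum_congr rfl fun m hm => ?_
    rw [Finset.sum_ite_eq]
    rw [if_pos hm]
  rw [h1, h2, ← Finset.sum_sub_distrib]
  simp only [← Finset.sum_sub_distrib]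
  rw [Finset.sum_mul_sum, Finset.mul_sum]
  refine norm_sum_le_of_le _ fun m _ => ?_
  rw [Finset.mul_sum]
  refine norm_sum_le_of_le _ fun n _ => ?_
  have hK : 0 ≤ U * √Real.pi := by positivity
  by_cases hmn : m = n
  · subst hmn
    rw [if_pos rfl, sub_self, wt_fourier hU]
    simp only [mul_zero, Complex.ofReal_zero, neg_zero, zero_mul, Complex.exp_zero, mul_one]
    have : Real.exp (-(U ^ 2 * (0:ℝ) ^ 2 / 4)) = 1 := by simp
    rw [this]
    have e : a m * (starRingEnd ℂ) (b m) * (((U * √Real.pi : ℝ) : ℂ) * ((1 : ℝ) : ℂ)) -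
        ((U * √Real.pi : ℝ) : ℂ) * (a m * (starRingEnd ℂ) (b m)) = 0 := by
      push_cast; ring
    rw [e, norm_zero]
    positivity
  · rw [if_neg hmn, sub_zero]
    by_cases ham : a m = 0
    · rw [ham, zero_mul, zero_mul, norm_zero]
      positivity
    by_cases hbn : b n = 0
    · rw [hbn, map_zero, mul_zero, zero_mul, norm_zero]
      positivity
    have hm1 : 1 ≤ m := by
      rcases Nat.eq_zero_or_pos m with h | h
      · exact absurd (h ▸ ha0) ham
      · exact h
    have hn1 : 1 ≤ n := by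
      rcases Nat.eq_zero_or_pos n with h | h
      · exact absurd (h ▸ hb0) hbn
      · exact h
    have hs := log_sep hm1 hn1 hmn (ha m ham)
    rw [norm_mul, norm_mul, RCLike.norm_conj, wt_fourier_norm hU]
    have h3 : Real.exp (-(U ^ 2 * (Real.log m - Real.log n) ^ 2 / 4)) ≤
        Real.exp (-(U ^ 2 / (16 * X ^ 2))) := by
      apply Real.exp_le_exp.2
      have h4 : (1 / (2 * X)) ^ 2 ≤ (Real.log m - Real.log n) ^ 2 := by
        rw [← sq_abs (Real.log m - Real.log n)]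
        have : 0 ≤ 1 / (2 * X) := by positivity
        gcongr
      have h5 : U ^ 2 / (16 * X ^ 2) = U ^ 2 * (1 / (2 * X)) ^ 2 / 4 := by field_simp; norm_num
      rw [h5]
      have := mul_le_mul_of_nonneg_left h4 (sq_nonneg U)
      linarith
    calc ‖a m‖ * ‖b n‖ * (U * √Real.pi * Real.exp (-(U ^ 2 * (Real.log m - Real.log n) ^ 2 / 4)))
        ≤ ‖a m‖ * ‖b n‖ * (U * √Real.pi * Real.exp (-(U ^ 2 / (16 * X ^ 2)))) := by gcongr
      _ = _ := by ring

end

end Q80.VS
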