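import Pool.Agent.Q80.VS.Dia

set_option autoImplicit false

/-! The limit of the diagonal. -/

namespace Q80.VS

open MeasureTheory Filter Topology Complex Set
open Q97.MM Q80.SP
open Pool.Agent.W182.KO (TF tau dk P P_bound P_diff P_inv one_add_inv_sq_int)
open Pool.Agent.TH612.CF (dg dg_zero dg_le dg_summable zh_eq FH FH_cont FH_le BF Tb zab tau_cont
  zeta_cont)

noncomputable section

variable {k : ℕ}

theorem zeta_re_le {s : ℂ} (hs : 1 < s.re) : ‖riemannZeta s‖ ≤ ‖riemannZeta (s.re : ℂ)‖ := by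
  have hs' : 1 < ((s.re : ℝ) : ℂ).re := by rwa [Complex.ofReal_re]
  have hsum : Summable (fun n : ℕ => 1 / ((n : ℝ) + 1) ^ s.re) := by
    have h1 := (summable_nat_add_iff 1).2 (Real.summable_one_div_nat_rpow.2 hs)
    refine h1.congr fun n => ?_
    push_cast
    rfl
  have hterm : ∀ n : ℕ, ‖1 / ((n : ℂ) + 1) ^ s‖ = 1 / ((n : ℝ) + 1) ^ s.re := by
    intro n
    have h0 : ((n : ℂ) + 1) = (((n : ℝ) + 1 : ℝ) : ℂ) := by push_cast; rfl
    rw [norm_div, norm_one, h0, Complex.norm_cpow_eq_rpow_re_of_pos (by positivity)]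
  have h2 : riemannZeta (s.re : ℂ) = ((∑' n : ℕ, 1 / ((n : ℝ) + 1) ^ s.re : ℝ) : ℂ) := by
    rw [zeta_eq_tsum_one_div_nat_add_one_cpow hs', Complex.ofReal_tsum]
    refine tsum_congr fun n => ?_
    rw [Complex.ofReal_div, Complex.ofReal_one, Complex.ofReal_cpow (by positivity)]
    push_cast
    rfl
  have h3 : ‖riemannZeta (s.re : ℂ)‖ = ∑' n : ℕ, 1 / ((n : ℝ) + 1) ^ s.re := by
    rw [h2, Complex.norm_real, Real.norm_of_nonneg (tsum_nonneg fun n => by positivity)]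
  rw [h3, zeta_eq_tsum_one_div_nat_add_one_cpow hs]
  refine (norm_tsum_le_tsum_norm (hsum.congr fun n => (hterm n).symm)).trans ?_
  exact (tsum_congr hterm).le

/-- the pole at one on the scale `1 / L` -/
theorem zeta_scale {w : ℂ} (hw : w ≠ 0) :
    Tendsto (fun L : ℝ => riemannZeta (1 + w * (L⁻¹ : ℝ)) / L) atTop (𝓝 (1 / w)) := by
  have h1 : Tendsto (fun L : ℝ => 1 + w * (L⁻¹ : ℝ)) atTop (𝓝[≠] (1 : ℂ)) := by
    refine tendsto_nhdsWithin_iff.2 ⟨?_, ?_⟩
    · have h2 : Tendsto (fun L : ℝ => ((L⁻¹ : ℝ) : ℂ)) atTop (𝓝 0) := by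
        have := (Complex.continuous_ofReal.tendsto 0).comp
          (tendsto_inv_atTop_zero (𝕜 := ℝ))
        rwa [Complex.ofReal_zero] at this
      simpa using (h2.const_mul w).const_add 1
    · filter_upwards [eventually_gt_atTop 0] with L hL
      simp only [mem_compl_iff, mem_singleton_iff, add_eq_left, mul_eq_zero, hw, false_or]
      exact_mod_cast (inv_pos.2 hL).ne'
  have h3 := (riemannZeta_residue_one.comp h1).const_mul (1 / w)
  rw [mul_one] at h3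
  refine h3.congr' ?_
  filter_upwards [eventually_gt_atTop 0] with L hL
  have hLc : (L : ℂ) ≠ 0 := Complex.ofReal_ne_zero.2 hL.ne'
  simp only [Function.comp]
  push_cast
  field_simp
  ring

theorem zeta_ev : ∀ᶠ L : ℝ in atTop, ∀ v : ℝ, ‖riemannZeta (1 + (2 + v * I) * (L⁻¹ : ℝ)) / L‖ ≤ 1 := by
  have h1 := (zeta_scale (w := 2) two_ne_zero).norm
  have h2 : ‖(1 / 2 : ℂ)‖ < 1 := by norm_num
  filter_upwards [h1.eventually (gt_mem_nhds h2), eventually_gt_atTop 0] with L h3 hL v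
  have hLi : 0 < L⁻¹ := inv_pos.2 hL
  have e1 : (1 + (2 + v * I) * (L⁻¹ : ℝ) : ℂ).re = 1 + 2 * L⁻¹ := by
    simp
  have h4 : 1 < (1 + (2 + v * I) * (L⁻¹ : ℝ) : ℂ).re := by rw [e1]; linarith
  have h5 := zeta_re_le h4
  rw [e1] at h5
  have e2 : (((1 + 2 * L⁻¹ : ℝ)) : ℂ) = 1 + 2 * ((L⁻¹ : ℝ) : ℂ) := by push_cast; ring
  rw [e2] at h5
  refine le_trans ?_ h3.le
  rw [norm_div, norm_div]
  gcongr

/-- the kernel -/
def KK (z : Fin k ⊕ Fin k → ℝ) : ℂ :=
  ∏ j : Fin k, ∏ l : Fin k, 1 / (2 + ((z (Sum.inl j) - z (Sum.inr l) : ℝ) : ℂ) * I)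

theorem arg_eq (u : ℝ) (z : Fin k ⊕ Fin k → ℝ) (j l : Fin k) :
    1 + I * az u z j - I * bz u z l = 1 + (2 + ((z (Sum.inl j) - z (Sum.inr l) : ℝ) : ℂ) * I) * u := by
  unfold az bz
  push_cast
  linear_combination (-2 * (u : ℂ)) * Complex.I_sq

theorem zab_scale {L : ℝ} (hL : 0 < L) (z : Fin k ⊕ Fin k → ℝ) :
    zab (az L⁻¹ z) (bz L⁻¹ z) / (L : ℂ) ^ (k ^ 2) = FH (az L⁻¹ z) (bz L⁻¹ z) *
      ∏ j : Fin k, ∏ l : Fin k,
        (riemannZeta (1 + (2 + ((z (Sum.inl j) - z (Sum.inr l) : ℝ) : ℂ) * I) * (L⁻¹ : ℝ)) / L) := by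
  unfold zab
  simp only [arg_eq, Finset.prod_div_distrib, Finset.prod_const, Finset.card_univ, Fintype.card_fin]
  rw [← pow_mul, ← sq]
  ring

theorem FH_lim (z : Fin k ⊕ Fin k → ℝ) :
    Tendsto (fun L : ℝ => FH (az L⁻¹ z) (bz L⁻¹ z)) atTop
      (𝓝 (FH (k := k) (fun _ => 0) (fun _ => 0))) := by
  have h1 : ContinuousOn (fun u : ℝ => FH (az u z) (bz u z)) (Ioo (-(1 / 8)) (1 / 8)) := by
    refine FH_cont isOpen_Ioo (c := 1 / 8) (by norm_num) (fun j => ?_) (fun j => ?_) ?_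
    · unfold az; fun_prop
    · unfold bz; fun_prop
    · intro u hu j
      rw [az_im, bz_im, abs_neg]
      exact ⟨abs_le.2 ⟨hu.1.le, hu.2.le⟩, abs_le.2 ⟨hu.1.le, hu.2.le⟩⟩
  have h2 : ContinuousAt (fun u : ℝ => FH (az u z) (bz u z)) 0 :=
    h1.continuousAt (Ioo_mem_nhds (by norm_num) (by norm_num))
  have h3 := h2.tendsto.comp tendsto_inv_atTop_zero
  have e1 : az 0 z = fun _ => (0 : ℂ) := by funext j; unfold az; simp
  have e2 : bz 0 z = fun _ => (0 : ℂ) := by funext j; unfold bz; simp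
  rw [e1, e2] at h3
  exact h3

theorem zab_cont {L : ℝ} (hL : 8 < L) :
    Continuous (fun z : Fin k ⊕ Fin k → ℝ => zab (az L⁻¹ z) (bz L⁻¹ z)) := by
  have hL0 : 0 < L := by linarith
  have hLi : 0 < L⁻¹ := inv_pos.2 hL0
  have hLi8 : L⁻¹ < 1 / 8 := by
    rw [inv_lt_comm₀ hL0 (by norm_num)]
    linarith
  unfold zab
  refine Continuous.mul ?_ ?_
  · rw [← continuousOn_univ]
    refine FH_cont isOpen_univ (c := 1 / 8) (by norm_num) (fun j => ?_) (fun j => ?_) ?_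
    · unfold az; fun_prop
    · unfold bz; fun_prop
    · intro z _ j
      rw [az_im, bz_im, abs_neg, abs_of_pos hLi]
      exact ⟨hLi8.le, hLi8.le⟩
  · refine continuous_finsetProd _ fun j _ => continuous_finsetProd _ fun l _ => ?_
    rw [← continuousOn_univ]
    refine zeta_cont ?_ ?_
    · unfold az bz; fun_prop
    · intro z _ hcon
      rw [arg_eq] at hcon
      have h1 := congrArg Complex.re hcon
      simp at h1
      linarith

theorem diag_lim {ξ η : Fin k → ℝ} {p q : Fin k → ℝ → ℂ} (hp : ∀ i, TF (ξ i) (p i))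
    (hq : ∀ i, TF (η i) (q i)) :
    Tendsto (fun L : ℝ => (∫ z : Fin k ⊕ Fin k → ℝ, GG p q z * zab (az L⁻¹ z) (bz L⁻¹ z)) /
      (L : ℂ) ^ (k ^ 2)) atTop
      (𝓝 (FH (k := k) (fun _ => 0) (fun _ => 0) * ∫ z : Fin k ⊕ Fin k → ℝ, GG p q z * KK z)) := by
  have e1 : FH (k := k) (fun _ => 0) (fun _ => 0) * ∫ z : Fin k ⊕ Fin k → ℝ, GG p q z * KK z =
      ∫ z : Fin k ⊕ Fin k → ℝ, GG p q z * (FH (k := k) (fun _ => 0) (fun _ => 0) * KK z) := by
    rw [← integral_const_mul]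
    refine integral_congr_ae (Eventually.of_forall fun z => ?_)
    simp only
    ring
  rw [e1]
  have e2 : ∀ L : ℝ, (∫ z : Fin k ⊕ Fin k → ℝ, GG p q z * zab (az L⁻¹ z) (bz L⁻¹ z)) /
      (L : ℂ) ^ (k ^ 2) = ∫ z : Fin k ⊕ Fin k → ℝ,
        GG p q z * (zab (az L⁻¹ z) (bz L⁻¹ z) / (L : ℂ) ^ (k ^ 2)) := by
    intro L
    rw [← integral_div]
    refine integral_congr_ae (Eventually.of_forall fun z => ?_)
    simp only
    ring
  simp only [e2]
  refine tendsto_integral_filter_of_dominated_convergence (fun z => ‖GG p q z‖ * BF k (1 / 8))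
    ?_ ?_ ((GG_int hp hq).norm.mul_const _) ?_
  · filter_upwards [eventually_gt_atTop 8] with L hL
    exact ((GG_cont hp hq).mul ((zab_cont hL).div_const _)).aestronglyMeasurable
  · filter_upwards [eventually_gt_atTop 8, zeta_ev] with L hL hz
    refine Eventually.of_forall fun z => ?_
    have hL0 : 0 < L := by linarith
    have hLi : 0 < L⁻¹ := inv_pos.2 hL0
    have hLi8 : L⁻¹ < 1 / 8 := by
      rw [inv_lt_comm₀ hL0 (by norm_num)]
      linarith
    rw [zab_scale hL0, norm_mul, norm_mul]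
    refine mul_le_mul_of_nonneg_left ?_ (norm_nonneg _)
    have h1 : ‖FH (az L⁻¹ z) (bz L⁻¹ z)‖ ≤ BF k (1 / 8) := by
      refine FH_le (by norm_num) fun j => ?_
      rw [az_im, bz_im, abs_neg, abs_of_pos hLi]
      exact ⟨hLi8.le, hLi8.le⟩
    have h2 : ‖∏ j : Fin k, ∏ l : Fin k,
        (riemannZeta (1 + (2 + ((z (Sum.inl j) - z (Sum.inr l) : ℝ) : ℂ) * I) * (L⁻¹ : ℝ)) / L)‖ ≤ 1 := by
      rw [norm_prod]
      refine Finset.prod_le_one (fun _ _ => norm_nonneg _) fun j _ => ?_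
      rw [norm_prod]
      exact Finset.prod_le_one (fun _ _ => norm_nonneg _) fun l _ => hz _
    calc _ ≤ BF k (1 / 8) * 1 := mul_le_mul h1 h2 (norm_nonneg _) ((norm_nonneg _).trans h1)
      _ = _ := mul_one _
  · refine Eventually.of_forall fun z => ?_
    have h1 : Tendsto (fun L : ℝ => FH (az L⁻¹ z) (bz L⁻¹ z) *
      ∏ j : Fin k, ∏ l : Fin k,
        (riemannZeta (1 + (2 + ((z (Sum.inl j) - z (Sum.inr l) : ℝ) : ℂ) * I) * (L⁻¹ : ℝ)) / L))
        atTop (𝓝 (FH (k := k) (fun _ => 0) (fun _ => 0) * KK z)) := by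
      refine (FH_lim z).mul ?_
      refine tendsto_finsetProd _ fun j _ => tendsto_finsetProd _ fun l _ => ?_
      refine zeta_scale ?_
      intro hcon
      have := congrArg Complex.re hcon
      simp at this
    refine (h1.congr' ?_).const_mul _
    filter_upwards [eventually_gt_atTop 0] with L hL
    exact (zab_scale hL z).symm

end

end Q80.VS
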