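import Pool.Agent.Q80.VS.Tra
import Pool.Agent.Q80.TM.Swp

set_option autoImplicit false

/-! Smoothed zeta factors against Dirichlet polynomials in the product. -/

namespace Q80.VS

open MeasureTheory Filter Topology Complex Set
open Q97.MM (Adm wt wt_pos pt abs_le_scaled scaled_integrable scaled_integral)
open Q80.SP
open Pool.Agent.W182.KO (TF tau dk P P_bound P_diff P_inv J2 J2_nonneg)

noncomputable section

variable {k : ℕ} {ξ1 : ℝ} {ψ : ℝ → ℂ}

theorem log_one {T : ℝ} (hT : 4 ≤ T) : 1 ≤ Real.log T := by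
  have h1 : Real.exp 1 ≤ T := by linarith [Real.exp_one_lt_d9]
  have h2 := Real.log_le_log (Real.exp_pos 1) h1
  rwa [Real.log_exp] at h2

theorem sm_bd (h : TF ξ1 ψ) : ∃ C : ℝ, 0 ≤ C ∧ ∀ T : ℝ, 4 ≤ T → ∀ t : ℝ,
    ‖sm ψ (Real.log T) (hz 1) t‖ ≤ C * (1 + |t|) ^ 2 := by
  obtain ⟨C3, hC3, hb⟩ := kr_bd h 4
  have hJ := J2_nonneg
  refine ⟨C3 * 180 * J2, by positivity, fun T hT t => ?_⟩
  have hL1 := log_one hT
  set L := Real.log T with hL
  have hL0 : 0 < L := by linarith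
  have q : ‖sm ψ L (hz 1) t‖ ≤ ∫ y : ℝ, (C3 * 180 * (1 + |t|) ^ 2) * (L / (1 + L * |y|) ^ 2) := by
    unfold sm
    refine norm_integral_le_of_norm_le ((sc_int hL0).const_mul _) (Eventually.of_forall fun y => ?_)
    rw [norm_mul]
    have a1 := hb L hL0 y
    have a2 := hz_bd 1 (t + y)
    have a3 : (1 + |t + y|) ^ 2 ≤ (1 + |t|) ^ 2 * (1 + L * |y|) ^ 2 := by
      rw [← mul_pow]
      have := abs_add_le t y
      have n1 := abs_nonneg t
      have n2 := abs_nonneg y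
      have n3 : |y| ≤ L * |y| := by nlinarith
      gcongr
      nlinarith [mul_nonneg n1 (mul_nonneg hL0.le n2)]
    have hp : 0 < 1 + L * |y| := by positivity
    calc ‖kr ψ L y‖ * ‖hz 1 (t + y)‖ ≤ (C3 * (L / (1 + L * |y|) ^ 4)) *
          (180 * ((1 + |t|) ^ 2 * (1 + L * |y|) ^ 2)) := by
          apply mul_le_mul a1 _ (norm_nonneg _) (by positivity)
          refine a2.trans ?_
          norm_num
          exact a3
      _ = _ := by
          field_simp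
  rw [integral_const_mul, sc_val hL0] at q
  refine q.trans (le_of_eq ?_)
  ring

/-- common bounds for one factor -/
structure FB (ψ : ℝ → ℂ) (C : ℝ) (m : ℕ) : Prop where
  hC : 1 ≤ C
  bs : ∀ T : ℝ, 4 ≤ T → ∀ t : ℝ, ‖sm ψ (Real.log T) (hz 1) t‖ ≤ C * T ^ m * (1 + |t|) ^ 2
  bd : ∀ T : ℝ, 4 ≤ T → ∀ t : ℝ, ‖DP 1 ψ (Real.log T) t‖ ≤ C * T ^ m * (1 + |t|) ^ 2

theorem FB.mono {C C' : ℝ} {m m' : ℕ} (h : FB ψ C m) (hC : C ≤ C') (hm : m ≤ m') : FB ψ C' m' := by
  have hh : ∀ T : ℝ, 4 ≤ T → ∀ t : ℝ, C * T ^ m * (1 + |t|) ^ 2 ≤ C' * T ^ m' * (1 + |t|) ^ 2 := by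
    intro T hT t
    have h1 : T ^ m ≤ T ^ m' := pow_le_pow_right₀ (by linarith) hm
    have h2 : 0 ≤ C := by linarith [h.hC]
    have h3 : 0 ≤ T ^ m := by positivity
    have h4 : 0 ≤ C' := h2.trans hC
    gcongr
  exact ⟨h.hC.trans hC, fun T hT t => (h.bs T hT t).trans (hh T hT t),
    fun T hT t => (h.bd T hT t).trans (hh T hT t)⟩

theorem exists_FB (h : TF ξ1 ψ) (hξ : 0 ≤ ξ1) : ∃ (C : ℝ) (m : ℕ), FB ψ C m := by
  obtain ⟨C1, hC1, hb1⟩ := sm_bd h
  obtain ⟨C2, m, hC2, hb2⟩ := crude 1 h hξ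
  refine ⟨C1 + C2 + 1, m, by linarith, fun T hT t => ?_, fun T hT t => ?_⟩
  · have hT1 : 1 ≤ T ^ m := one_le_pow₀ (by linarith)
    refine (hb1 T hT t).trans ?_
    have : C1 ≤ (C1 + C2 + 1) * T ^ m := by nlinarith
    gcongr
  · have hT1 : 1 ≤ T ^ m := one_le_pow₀ (by linarith)
    have h1 := hb1 T hT t
    have h2 := hb2 T hT t
    have e1 : DP 1 ψ (Real.log T) t = (DP 1 ψ (Real.log T) t - sm ψ (Real.log T) (hz 1) t) +
        sm ψ (Real.log T) (hz 1) t := by ring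
    rw [e1]
    refine (norm_add_le _ _).trans ((add_le_add h2 h1).trans ?_)
    have h3 : 0 ≤ (1 + |t|) ^ 2 := by positivity
    have h4 : C2 * T ^ m + C1 ≤ (C1 + C2 + 1) * T ^ m := by nlinarith
    calc C2 * T ^ m * (1 + |t|) ^ (2 * 1) + C1 * (1 + |t|) ^ 2 =
          (C2 * T ^ m + C1) * (1 + |t|) ^ 2 := by ring
      _ ≤ _ := by gcongr

/-- the smoothed factors -/
def sme (p q : Fin k → ℝ → ℂ) (L t : ℝ) : Fin k ⊕ Fin k → ℂ :=
  Sum.elim (fun i => sm (p i) L (hz 1) t) (fun j => (starRingEnd ℂ) (sm (q j) L (hz 1) t))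

/-- the Dirichlet polynomials -/
def dpe (p q : Fin k → ℝ → ℂ) (L t : ℝ) : Fin k ⊕ Fin k → ℂ :=
  Sum.elim (fun i => DP 1 (p i) L t) (fun j => (starRingEnd ℂ) (DP 1 (q j) L t))

theorem err {ξ η : Fin k → ℝ} {p q : Fin k → ℝ → ℂ} (hp : ∀ i, TF (ξ i) (p i))
    (hq : ∀ i, TF (η i) (q i)) (hξ : ∀ i, 0 ≤ ξ i) (hη : ∀ i, 0 ≤ η i) :
    ∃ (C : ℝ) (B : ℕ), 0 ≤ C ∧ ∀ T U : ℝ, 4 ≤ T → Adm T U → ∀ t : ℝ,
      ‖(∏ e, sme p q (Real.log T) t e) - ∏ e, dpe p q (Real.log T) t e‖ * wt T U t ≤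
        C * (T⁻¹ + T ^ B * Real.exp (-(Real.log T ^ 2 / 8))) *
          ((1 + |(t - T) / U|) ^ (4 * k) * Real.exp (-(((t - T) / U) ^ 2 / 2))) := by
  -- uniform constants
  choose c1 m1 hF1 using fun i => exists_FB (hp i) (hξ i)
  choose c2 m2 hF2 using fun i => exists_FB (hq i) (hη i)
  set C0 : ℝ := 1 + (∑ i, c1 i) + ∑ i, c2 i with hC0
  set m : ℕ := (∑ i, m1 i) + ∑ i, m2 i with hm
  have hc1 : ∀ i, 0 ≤ c1 i := fun i => by linarith [(hF1 i).hC]
  have hc2 : ∀ i, 0 ≤ c2 i := fun i => by linarith [(hF2 i).hC]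
  have hs1 : 0 ≤ ∑ i, c1 i := Finset.sum_nonneg fun i _ => hc1 i
  have hs2 : 0 ≤ ∑ i, c2 i := Finset.sum_nonneg fun i _ => hc2 i
  have hG1 : ∀ i, FB (p i) C0 m := fun i => (hF1 i).mono
    (by have := Finset.single_le_sum (f := c1) (fun i _ => hc1 i) (Finset.mem_univ i); linarith)
    (by
      have := Finset.single_le_sum (f := m1) (fun i _ => Nat.zero_le _) (Finset.mem_univ i)
      omega)
  have hG2 : ∀ i, FB (q i) C0 m := fun i => (hF2 i).mono
    (by have := Finset.single_le_sum (f := c2) (fun i _ => hc2 i) (Finset.mem_univ i); linarith)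
    (by
      have := Finset.single_le_sum (f := m2) (fun i _ => Nat.zero_le _) (Finset.mem_univ i)
      omega)
  have hC01 : 1 ≤ C0 := by linarith
  -- the difference
  set A : ℕ := 2 * k * (m + 2) + 1 with hA
  choose d1 hd1 ha1 using fun i => apx 1 (hp i) (hξ i) A
  choose d2 hd2 ha2 using fun i => apx 1 (hq i) (hη i) A
  set D : ℝ := (∑ i, d1 i) + ∑ i, d2 i with hD
  have hD1 : 0 ≤ ∑ i, d1 i := Finset.sum_nonneg fun i _ => hd1 i
  have hD2 : 0 ≤ ∑ i, d2 i := Finset.sum_nonneg fun i _ => hd2 i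
  have hD0 : 0 ≤ D := by linarith
  have hb : ∀ T : ℝ, 4 ≤ T → ∀ t e, ‖sme p q (Real.log T) t e‖ ≤ C0 * T ^ m * (1 + |t|) ^ 2 := by
    rintro T hT t (i | j)
    · exact (hG1 i).bs T hT t
    · show ‖(starRingEnd ℂ) (sm (q j) (Real.log T) (hz 1) t)‖ ≤ _
      rw [RCLike.norm_conj]
      exact (hG2 j).bs T hT t
  have hb' : ∀ T : ℝ, 4 ≤ T → ∀ t e, ‖dpe p q (Real.log T) t e‖ ≤ C0 * T ^ m * (1 + |t|) ^ 2 := by
    rintro T hT t (i | j)
    · exact (hG1 i).bd T hT t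
    · show ‖(starRingEnd ℂ) (DP 1 (q j) (Real.log T) t)‖ ≤ _
      rw [RCLike.norm_conj]
      exact (hG2 j).bd T hT t
  have hdf : ∀ T : ℝ, 4 ≤ T → ∀ t : ℝ, |t - T| ≤ T / 2 → ∀ e,
      ‖sme p q (Real.log T) t e - dpe p q (Real.log T) t e‖ ≤ D / T ^ A := by
    rintro T hT t ht (i | j)
    · have hT0 : 0 < T := by linarith
      have h1 := ha1 i T hT t ht
      rw [norm_sub_rev] at h1
      refine h1.trans ?_
      have := Finset.single_le_sum (f := d1) (fun i _ => hd1 i) (Finset.mem_univ i)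
      gcongr
      linarith
    · have hT0 : 0 < T := by linarith
      show ‖(starRingEnd ℂ) (sm (q j) (Real.log T) (hz 1) t) -
        (starRingEnd ℂ) (DP 1 (q j) (Real.log T) t)‖ ≤ _
      rw [← map_sub, RCLike.norm_conj]
      have h1 := ha2 j T hT t ht
      rw [norm_sub_rev] at h1
      refine h1.trans ?_
      have := Finset.single_le_sum (f := d2) (fun i _ => hd2 i) (Finset.mem_univ j)
      gcongr
      linarith
  have hcard : (Finset.univ : Finset (Fin k ⊕ Fin k)).card = 2 * k := by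
    rw [Finset.card_univ, Fintype.card_sum, Fintype.card_fin]
    ring
  refine ⟨2 * k * (9 * C0) ^ (2 * k) * D + 2 * C0 ^ (2 * k) * 2 ^ (4 * k), 2 * k * m + 4 * k,
    by positivity, fun T U hT hAd t => ?_⟩
  have hT0 : 0 < T := by linarith
  have hT1 : 1 ≤ T := by linarith
  have hU := hAd.pos
  have hL1 := log_one hT
  set x : ℝ := (t - T) / U with hx
  have hE0 : 0 < T ^ (2 * k * m + 4 * k) * Real.exp (-(Real.log T ^ 2 / 8)) := by positivity
  have hx1 : 1 ≤ (1 + |x|) ^ (4 * k) := one_le_pow₀ (by linarith [abs_nonneg x])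
  have hwt : wt T U t = Real.exp (-(x ^ 2)) := by unfold wt; rw [hx]
  have hTm : 1 ≤ T ^ m := one_le_pow₀ hT1
  by_cases ht : |t - T| ≤ T / 2
  · have ht3 : 1 + |t| ≤ 3 * T := by
      rw [abs_le] at ht
      rw [abs_of_nonneg (by linarith [ht.1])]
      linarith [ht.2]
    have hBT : C0 * T ^ m * (1 + |t|) ^ 2 ≤ (9 * C0) * T ^ (m + 2) := by
      calc C0 * T ^ m * (1 + |t|) ^ 2 ≤ C0 * T ^ m * (3 * T) ^ 2 := by gcongr
        _ = _ := by rw [pow_add]; ring
    have hB1 : 1 ≤ (9 * C0) * T ^ (m + 2) := by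
      have : 1 ≤ T ^ (m + 2) := one_le_pow₀ hT1
      nlinarith
    have h1 := (Pool.Agent.Q80.TM.prod_sub Finset.univ hB1 (show 0 ≤ D / T ^ A by positivity)
      (fun e => (hb T hT t e).trans hBT) (fun e => (hb' T hT t e).trans hBT)
      (fun e => hdf T hT t ht e)).2.2
    rw [hcard] at h1
    have h2 : ((2 * k : ℕ) : ℝ) * ((9 * C0) * T ^ (m + 2)) ^ (2 * k) * (D / T ^ A) =
        2 * k * (9 * C0) ^ (2 * k) * D * T⁻¹ := by
      rw [mul_pow, ← pow_mul, hA, pow_succ, show (m + 2) * (2 * k) = 2 * k * (m + 2) by ring]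
      push_cast
      field_simp
    rw [h2] at h1
    have h3 : wt T U t ≤ (1 + |x|) ^ (4 * k) * Real.exp (-(x ^ 2 / 2)) := by
      rw [hwt]
      have : Real.exp (-(x ^ 2)) ≤ Real.exp (-(x ^ 2 / 2)) := by
        apply Real.exp_le_exp.2
        nlinarith [sq_nonneg x]
      nlinarith [Real.exp_pos (-(x ^ 2 / 2))]
    calc _ ≤ (2 * k * (9 * C0) ^ (2 * k) * D * T⁻¹) *
          ((1 + |x|) ^ (4 * k) * Real.exp (-(x ^ 2 / 2))) := by
          apply mul_le_mul h1 h3 (wt_pos _ _ _).le (by positivity)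
      _ ≤ _ := by
          apply mul_le_mul_of_nonneg_right _ (by positivity)
          have i1 : 0 ≤ 2 * C0 ^ (2 * k) * 2 ^ (4 * k) := by positivity
          have i2 : 0 ≤ 2 * k * (9 * C0) ^ (2 * k) * D := by positivity
          have i3 : 0 < T⁻¹ := by positivity
          nlinarith [mul_nonneg i1 i3.le, mul_nonneg i1 hE0.le, mul_nonneg i2 hE0.le]
  · push Not at ht
    have h1 : ∀ (a : Fin k ⊕ Fin k → ℂ), (∀ e, ‖a e‖ ≤ C0 * T ^ m * (1 + |t|) ^ 2) →
        ‖∏ e, a e‖ ≤ C0 ^ (2 * k) * T ^ (2 * k * m) * (1 + |t|) ^ (4 * k) := by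
      intro a ha
      rw [norm_prod]
      refine (Finset.prod_le_prod (fun _ _ => norm_nonneg _) fun e _ => ha e).trans (le_of_eq ?_)
      rw [Finset.prod_const, hcard, mul_pow, mul_pow, ← pow_mul, ← pow_mul]
      congr 2
      · congr 1; ring
      · ring
    have h2 : ‖(∏ e, sme p q (Real.log T) t e) - ∏ e, dpe p q (Real.log T) t e‖ ≤
        2 * (C0 ^ (2 * k) * T ^ (2 * k * m) * (1 + |t|) ^ (4 * k)) := by
      refine (norm_sub_le _ _).trans ?_
      have := h1 _ (hb T hT t)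
      have := h1 _ (hb' T hT t)
      linarith
    have h3 : (1 + |t|) ^ (4 * k) ≤ (2 * T) ^ (4 * k) * (1 + |x|) ^ (4 * k) := by
      rw [← mul_pow]
      have h4 := abs_le_scaled hU hT0.le hAd.le t
      have h5 : (1 + T) * (1 + |(t - T) / U|) ≤ 2 * T * (1 + |(t - T) / U|) := by
        apply mul_le_mul_of_nonneg_right _ (by positivity)
        linarith
      gcongr
      exact h4.trans h5
    have h6 : wt T U t ≤ Real.exp (-(Real.log T ^ 2 / 8)) * Real.exp (-(x ^ 2 / 2)) := by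
      rw [hwt, ← Real.exp_add]
      apply Real.exp_le_exp.2
      have h7 : Real.log T / 2 ≤ |x| := by
        rw [hx, abs_div, abs_of_pos hU, le_div_iff₀ hU]
        have h8 := hAd.2.2
        rw [le_div_iff₀ (by linarith)] at h8
        nlinarith
      have h9 : Real.log T ^ 2 / 4 ≤ x ^ 2 := by
        rw [← sq_abs x]
        nlinarith
      linarith
    calc _ ≤ (2 * (C0 ^ (2 * k) * T ^ (2 * k * m) * ((2 * T) ^ (4 * k) * (1 + |x|) ^ (4 * k)))) *
          (Real.exp (-(Real.log T ^ 2 / 8)) * Real.exp (-(x ^ 2 / 2))) := by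
          apply mul_le_mul _ h6 (wt_pos _ _ _).le (by positivity)
          refine h2.trans ?_
          gcongr
      _ = (2 * C0 ^ (2 * k) * 2 ^ (4 * k)) * (T ^ (2 * k * m + 4 * k) *
            Real.exp (-(Real.log T ^ 2 / 8))) * ((1 + |x|) ^ (4 * k) * Real.exp (-(x ^ 2 / 2))) := by
          rw [mul_pow, pow_add]
          ring
      _ ≤ _ := by
          apply mul_le_mul_of_nonneg_right _ (by positivity)
          have i1 : 0 ≤ 2 * C0 ^ (2 * k) * 2 ^ (4 * k) := by positivity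
          have i2 : 0 ≤ 2 * k * (9 * C0) ^ (2 * k) * D := by positivity
          have i3 : 0 < T⁻¹ := by positivity
          nlinarith [mul_nonneg i1 i3.le, mul_nonneg i2 i3.le, mul_nonneg i2 hE0.le]

end

end Q80.VS
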