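import Pool.Agent.Q80.VS.Lim

set_option autoImplicit false

/-! The limit of the diagonal as an integral over nonnegative matrices. -/

namespace Q80.VS

open MeasureTheory Filter Topology Complex Set
open Q97.MM Q80.SP
open Pool.Agent.W182.KO (TF tau dk P P_bound P_diff P_inv one_add_inv_sq_int)
open Pool.Agent.TH612.CF (FH)

noncomputable section

variable {k : ℕ}

/-- row sums and column sums -/
def rs (u : Fin k × Fin k → ℝ) : Fin k ⊕ Fin k → ℝ :=
  Sum.elim (fun i => ∑ j, u (i, j)) (fun j => ∑ i, u (i, j))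

/-- the measure on nonnegative matrices -/
def mm (k : ℕ) : Measure (Fin k × Fin k → ℝ) := Measure.pi fun _ => volume.restrict (Ioi (0:ℝ))

instance : SigmaFinite (mm k) := by unfold mm; infer_instance

/-- the transport integral -/
def TT (p q : Fin k → ℝ → ℂ) : ℂ := ∫ u, ∏ e, pq p q e (rs u e) ∂(mm k)

theorem exp_int {w : ℂ} (hw : 0 < w.re) : ∫ u in Ioi (0:ℝ), cexp (-(u * w)) = 1 / w := by
  have h := integral_exp_mul_complex_Ioi (a := -w) (by simpa using hw) 0
  have hw0 : w ≠ 0 := by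
    rintro rfl
    simp at hw
  have e1 : ∀ u : ℝ, cexp (-(u * w)) = cexp (-w * u) := fun u => by congr 1; ring
  simp only [e1]
  rw [h]
  simp

theorem rs_sum (u : Fin k × Fin k → ℝ) (z : Fin k ⊕ Fin k → ℝ) :
    ∑ e, (rs u e : ℂ) * we e (z e) =
      ∑ x : Fin k × Fin k, (u x : ℂ) *
        (2 + ((z (Sum.inl x.1) - z (Sum.inr x.2) : ℝ) : ℂ) * I) := by
  rw [Fintype.sum_sum_type, Fintype.sum_prod_type]
  have e1 : ∀ i : Fin k, (rs u (Sum.inl i) : ℂ) * we (Sum.inl i : Fin k ⊕ Fin k) (z (Sum.inl i)) =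
      ∑ j, (u (i, j) : ℂ) * (1 + z (Sum.inl i) * I) := by
    intro i
    show ((∑ j, u (i, j) : ℝ) : ℂ) * (1 + z (Sum.inl i) * I) = _
    rw [Complex.ofReal_sum, Finset.sum_mul]
  have e2 : ∀ j : Fin k, (rs u (Sum.inr j) : ℂ) * we (Sum.inr j : Fin k ⊕ Fin k) (z (Sum.inr j)) =
      ∑ i, (u (i, j) : ℂ) * (1 - z (Sum.inr j) * I) := by
    intro j
    show ((∑ i, u (i, j) : ℝ) : ℂ) * (1 - z (Sum.inr j) * I) = _
    rw [Complex.ofReal_sum, Finset.sum_mul]
  simp only [e1, e2]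
  rw [Finset.sum_comm (f := fun (j i : Fin k) => (u (i, j) : ℂ) * (1 - z (Sum.inr j) * I)),
    ← Finset.sum_add_distrib]
  refine Finset.sum_congr rfl fun i _ => ?_
  rw [← Finset.sum_add_distrib]
  refine Finset.sum_congr rfl fun j _ => ?_
  push_cast
  ring

theorem KK_eq (z : Fin k ⊕ Fin k → ℝ) :
    KK z = ∫ u, ∏ e, cexp (-(rs u e * we e (z e))) ∂(mm k) := by
  have h1 : ∀ u : Fin k × Fin k → ℝ, ∏ e, cexp (-(rs u e * we e (z e))) =
      ∏ x : Fin k × Fin k, cexp (-(u x *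
        (2 + ((z (Sum.inl x.1) - z (Sum.inr x.2) : ℝ) : ℂ) * I))) := by
    intro u
    rw [← Complex.exp_sum, ← Complex.exp_sum]
    congr 1
    rw [Finset.sum_neg_distrib, Finset.sum_neg_distrib, rs_sum]
  simp only [h1]
  unfold mm
  rw [integral_fintype_prod_eq_prod (fun (x : Fin k × Fin k) (v : ℝ) => cexp (-(v *
        (2 + ((z (Sum.inl x.1) - z (Sum.inr x.2) : ℝ) : ℂ) * I))))]
  unfold KK
  rw [Fintype.prod_prod_type]
  refine Finset.prod_congr rfl fun j _ => Finset.prod_congr rfl fun l _ => ?_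
  rw [exp_int (by simp)]

theorem rs_cont (e : Fin k ⊕ Fin k) : Continuous (fun u : Fin k × Fin k → ℝ => rs u e) := by
  rcases e with i | j
  · show Continuous (fun u : Fin k × Fin k → ℝ => ∑ j, u (i, j))
    fun_prop
  · show Continuous (fun u : Fin k × Fin k → ℝ => ∑ i, u (i, j))
    fun_prop

theorem mm_exp_int : Integrable (fun u : Fin k × Fin k → ℝ => ∏ x, Real.exp (-(2 * u x))) (mm k) := by
  unfold mm
  refine Integrable.fintype_prod (f := fun (_ : Fin k × Fin k) (v : ℝ) => Real.exp (-(2 * v)))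
    fun x => ?_
  have := exp_neg_integrableOn_Ioi 0 (show (0:ℝ) < 2 by norm_num)
  refine this.congr (Eventually.of_forall fun v => ?_)
  simp only [neg_mul]

theorem exp_rs_norm (u : Fin k × Fin k → ℝ) (z : Fin k ⊕ Fin k → ℝ) :
    ‖∏ e, cexp (-(rs u e * we e (z e)))‖ = ∏ x, Real.exp (-(2 * u x)) := by
  rw [← Complex.exp_sum, Finset.sum_neg_distrib, rs_sum, Complex.norm_exp, ← Real.exp_sum]
  congr 1
  rw [Complex.neg_re, Complex.re_sum, Finset.sum_neg_distrib]
  congr 1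
  refine Finset.sum_congr rfl fun x _ => ?_
  rw [Complex.re_ofReal_mul]
  simp
  ring

theorem GG_KK {ξ η : Fin k → ℝ} {p q : Fin k → ℝ → ℂ} (hp : ∀ i, TF (ξ i) (p i))
    (hq : ∀ i, TF (η i) (q i)) : ∫ z : Fin k ⊕ Fin k → ℝ, GG p q z * KK z = TT p q := by
  have h1 : ∀ z : Fin k ⊕ Fin k → ℝ, GG p q z * KK z =
      ∫ u, GG p q z * ∏ e, cexp (-(rs u e * we e (z e))) ∂(mm k) := by
    intro z
    rw [KK_eq, integral_const_mul]
  simp only [h1]
  rw [integral_integral_swap]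
  · unfold TT
    refine integral_congr_ae (Eventually.of_forall fun u => ?_)
    exact prod_inv hp hq (rs u)
  · have h2 : Integrable (fun x : (Fin k ⊕ Fin k → ℝ) × (Fin k × Fin k → ℝ) =>
        ‖GG p q x.1‖ * ∏ y, Real.exp (-(2 * x.2 y))) (volume.prod (mm k)) :=
      (GG_int hp hq).norm.mul_prod mm_exp_int
    refine h2.mono' ?_ (Eventually.of_forall fun x => ?_)
    · have hc : Continuous (fun x : (Fin k ⊕ Fin k → ℝ) × (Fin k × Fin k → ℝ) =>
          GG p q x.1 * ∏ e, cexp (-(rs x.2 e * we e (x.1 e)))) := by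
        refine ((GG_cont hp hq).comp continuous_fst).mul (continuous_finsetProd _ fun e _ => ?_)
        have h3 := (we_cont e).comp ((continuous_apply (A := fun _ => ℝ) e).comp
          (continuous_fst (X := Fin k ⊕ Fin k → ℝ) (Y := Fin k × Fin k → ℝ)))
        have h4 := (Complex.continuous_ofReal.comp (rs_cont e)).comp
          (continuous_snd (X := Fin k ⊕ Fin k → ℝ) (Y := Fin k × Fin k → ℝ))
        exact Complex.continuous_exp.comp (h4.mul h3).neg
      exact hc.aestronglyMeasurable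
    · show ‖GG p q x.1 * ∏ e, cexp (-(rs x.2 e * we e (x.1 e)))‖ ≤ _
      rw [norm_mul, exp_rs_norm]

theorem diag_lim' {ξ η : Fin k → ℝ} {p q : Fin k → ℝ → ℂ} (hp : ∀ i, TF (ξ i) (p i))
    (hq : ∀ i, TF (η i) (q i)) :
    Tendsto (fun L : ℝ => (∫ z : Fin k ⊕ Fin k → ℝ,
      GG p q z * Pool.Agent.TH612.CF.zab (az L⁻¹ z) (bz L⁻¹ z)) / (L : ℂ) ^ (k ^ 2)) atTop
      (𝓝 (FH (k := k) (fun _ => 0) (fun _ => 0) * TT p q)) := by
  have h := diag_lim hp hq
  rwa [GG_KK hp hq] at h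

end

end Q80.VS
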